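import Pool.Agent.Helper57.TD.Reduce
import Pool.Agent.Helper51.TDC.Final

/-!
# Theorem D and its tight version
-/

set_option autoImplicit false

namespace Pool.Agent.Helper57.TD

open SimpleGraph Pool.Agent.Helper57.TOK Pool.Agent.Helper82.TK Pool.Agent.Helper1.TD
open Pool.Agent.Helper51.TDC

variable {V : Type*}

/-- THEOREM D: dense societies have all coloured frames. -/
theorem theoremD [Finite V] (Z : SimpleGraph V) (κ : V → ZMod 2) (S T : Set V)
    (h : Soc false Z κ S T) : AllFramesE Z κ T :=
  theoremD_of (fun _ _ _ _ h => core_false h) Z κ S T h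

lemma beta_of_is22 [Finite V] {κ : V → ZMod 2} {T : Set V} (h : Is22 κ T) (h4 : T.ncard = 4) :
    beta κ T = 1 := by
  obtain ⟨p, q, u, v, hT, hpq, huv, h1, h2, h3⟩ := h
  have hnm : ¬ Mono κ T := fun hm => h3 (hm p (by rw [hT]; simp) u (by rw [hT]; simp))
  rw [beta_of_not_mono hnm, h4]; norm_num

/-- The tight core situation is contradictory. -/
theorem coreB_false [Finite V] {Z : SimpleGraph V} {κ : V → ZMod 2} {S T : Set V}
    (h : CoreB Z κ S T) : False := by
  obtain ⟨X, hX⟩ := exists_minXB h
  have hs := star h.toCore hX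
  have hXS := X_eq_S h.toCore hX hs
  subst hXS
  refine mixed_falseB h.toCore hX hs ?_
  rw [h.P3, beta_of_is22 h.TT h.T4]

/-- THEOREM D(b): tight societies with terminals of type 2+2 have H-trees. -/
theorem theoremDb [Finite V] (Z : SimpleGraph V) (κ : V → ZMod 2) (S T : Set V)
    (h : Soc true Z κ S T) : HT Z κ T :=
  theoremDb_of theoremD (fun _ _ _ _ h => coreB_false h) Z κ S T h

/-- Both modes. -/
theorem theorem_goal [Finite V] (md : Bool) (Z : SimpleGraph V) (κ : V → ZMod 2) (S T : Set V)
    (h : Soc md Z κ S T) : Goal md Z κ T := by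
  cases md
  · exact theoremD Z κ S T h
  · exact theoremDb Z κ S T h

end Pool.Agent.Helper57.TD
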