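import Pool.Agent.Helper57.TD.Defs

/-!
# Flipping the colour of a pendant terminal, and the sub-society lemma
-/

set_option autoImplicit false

namespace Pool.Agent.Helper57.TD

open SimpleGraph Pool.Agent.Helper57.TOK Pool.Agent.Helper82.TK

variable {V : Type*}

open Classical in
/-- Indicator of `q` in `ZMod 2`. -/
noncomputable def ind (q x : V) : ZMod 2 := if x = q then 1 else 0

lemma wt_flip {G : SimpleGraph V} {c c' : Sym2 V → ZMod 2} {q : V}
    (hc : ∀ x y, G.Adj x y → c' s(x, y) = c s(x, y) + ind q x + ind q y) {a b : V}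
    (p : G.Walk a b) : wt c' p = wt c p + ind q a + ind q b := by
  induction p with
  | nil =>
    simp only [wt_nil, zero_add]
    exact (CharTwo.add_self_eq_zero _).symm
  | @cons a z b h p ih =>
    rw [wt_cons, wt_cons, ih, hc a z h]
    have h2 : ind q z + ind q z = 0 := CharTwo.add_self_eq_zero _
    calc c s(a, z) + ind q a + ind q z + (wt c p + ind q z + ind q b)
        = c s(a, z) + wt c p + ind q a + ind q b + (ind q z + ind q z) := by ring
      _ = c s(a, z) + wt c p + ind q a + ind q b := by rw [h2, add_zero]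

/-- The branch vertices of a TOK4 have at least three neighbours. -/
lemma three_le_of_branch [Finite V] {G : SimpleGraph V} {v : Fin 4 → V}
    (hv : Function.Injective v) (P : ∀ i j : Fin 4, G.Walk (v i) (v j))
    (hd : ∀ i j k l : Fin 4, i < j → k < l → (i, j) ≠ (k, l) →
        ∀ x : V, x ∈ (P i j).support → x ∈ (P k l).support →
          ((x = v i ∨ x = v j) ∧ (x = v k ∨ x = v l))) (m : Fin 4) :
    3 ≤ (G.neighborSet (v m)).ncard := by
  classical
  -- neighbour of v m on the path towards v k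
  have hex : ∀ k : Fin 4, k ≠ m → ∃ z, G.Adj (v m) z ∧
      z ∈ (P (min m k) (max m k)).support := by
    intro k hk
    rcases lt_or_gt_of_ne hk with h | h
    · -- k < m
      have e1 : min m k = k := min_eq_right h.le
      have e2 : max m k = m := max_eq_left h.le
      rw [e1, e2]
      obtain ⟨z, hz, he⟩ := exists_last_edge (P k m) (fun hh => (ne_of_lt h) (hv hh))
      exact ⟨z, hz.symm, Walk.fst_mem_support_of_mem_edges _ he⟩
    · have e1 : min m k = m := min_eq_left h.le
      have e2 : max m k = k := max_eq_right h.le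
      rw [e1, e2]
      obtain ⟨z, hz, he⟩ := exists_first_edge (P m k) (fun hh => (ne_of_lt h) (hv hh))
      exact ⟨z, hz, Walk.snd_mem_support_of_mem_edges _ he⟩
  have hex' : ∀ k : Fin 4, ∃ z, k ≠ m → (G.Adj (v m) z ∧
      z ∈ (P (min m k) (max m k)).support) := by
    intro k
    by_cases hk : k ≠ m
    · obtain ⟨z, hz⟩ := hex k hk
      exact ⟨z, fun _ => hz⟩
    · exact ⟨v m, fun h => absurd h hk⟩
  choose z hz using hex'
  have hlt : ∀ k : Fin 4, k ≠ m → min m k < max m k := by
    intro k hk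
    rcases lt_or_gt_of_ne hk with h | h
    · rw [min_eq_right h.le, max_eq_left h.le]; exact h
    · rw [min_eq_left h.le, max_eq_right h.le]; exact h
  have hinj : ∀ k l : Fin 4, k ≠ m → l ≠ m → z k = z l → k = l := by
    intro k l hk hl hkl
    by_contra hne
    have hpair : (min m k, max m k) ≠ (min m l, max m l) := by
      intro h
      rw [Prod.mk.injEq] at h
      obtain ⟨h1, h2⟩ := h
      apply hne
      have : min m k + 0 = min m k := by simp
      rcases lt_or_gt_of_ne hk with a1 | a1 <;> rcases lt_or_gt_of_ne hl with a2 | a2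
      · rw [min_eq_right a1.le, min_eq_right a2.le] at h1; exact h1
      · rw [min_eq_right a1.le, min_eq_left a2.le] at h1; exact absurd h1 hk
      · rw [min_eq_left a1.le, min_eq_right a2.le] at h1; exact absurd h1.symm hl
      · rw [max_eq_right a1.le, max_eq_right a2.le] at h2; exact h2
    have := hd _ _ _ _ (hlt k hk) (hlt l hl) hpair (z k) (hz k hk).2 (hkl ▸ (hz l hl).2)
    have hzm : z k ≠ v m := (hz k hk).1.ne.symm
    -- z k is v k and v l
    have hk' : z k = v k := by
      rcases lt_or_gt_of_ne hk with a1 | a1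
      · rw [min_eq_right a1.le, max_eq_left a1.le] at this
        rcases this.1 with h | h
        · exact h
        · exact absurd h hzm
      · rw [min_eq_left a1.le, max_eq_right a1.le] at this
        rcases this.1 with h | h
        · exact absurd h hzm
        · exact h
    have hl' : z k = v l := by
      rcases lt_or_gt_of_ne hl with a1 | a1
      · rw [min_eq_right a1.le, max_eq_left a1.le] at this
        rcases this.2 with h | h
        · exact h
        · exact absurd h hzm
      · rw [min_eq_left a1.le, max_eq_right a1.le] at this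
        rcases this.2 with h | h
        · exact absurd h hzm
        · exact h
    exact hne (hv (hk'.symm.trans hl'))
  -- three distinct neighbours
  have hcard : ((Finset.univ.erase m).image z).card = 3 := by
    rw [Finset.card_image_of_injOn]
    · simp
    · intro k hk l hl h
      have hk' : k ≠ m := by simpa using hk
      have hl' : l ≠ m := by simpa using hl
      exact hinj k l hk' hl' h
  have hsub : (((Finset.univ.erase m).image z : Finset V) : Set V) ⊆ G.neighborSet (v m) := by
    intro x hx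
    rw [Finset.mem_coe, Finset.mem_image] at hx
    obtain ⟨k, hk, rfl⟩ := hx
    exact (hz k (by simpa using hk)).1
  have := Set.ncard_le_ncard hsub (Set.toFinite _)
  rw [Set.ncard_coe_finset, hcard] at this
  exact this

/-- Changing the labels at a vertex of degree at most two. -/
theorem HasTOK4s.flip [Finite V] {G : SimpleGraph V} {c c' : Sym2 V → ZMod 2} {q : V}
    (hdeg : (G.neighborSet q).ncard ≤ 2)
    (hc : ∀ x y, G.Adj x y → c' s(x, y) = c s(x, y) + ind q x + ind q y)
    (h : HasTOK4s G c) : HasTOK4s G c' := by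
  obtain ⟨v, hv, P, hP, hd⟩ := h
  have hq : ∀ m, v m ≠ q := by
    intro m hm
    have := three_le_of_branch hv P hd m
    rw [hm] at this
    omega
  refine ⟨v, hv, P, fun i j hij => ⟨(hP i j hij).1, ?_⟩, hd⟩
  have hi : ind q (v i) = 0 := by unfold ind; rw [if_neg (hq i)]
  have hj : ind q (v j) = 0 := by unfold ind; rw [if_neg (hq j)]
  rw [wt_flip hc, hi, hj, add_zero, add_zero]
  exact (hP i j hij).2

/-- Flipping the colour of a terminal with at most one neighbour. -/
theorem AllFramesE.flip [Finite V] {Z : SimpleGraph V} {κ κ' : V → ZMod 2} {T : Set V} {q : V}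
    (hdeg : (Z.neighborSet q).ncard ≤ 1) (hκ : ∀ x, κ' x = κ x + ind q x)
    (hF : AllFramesE Z κ T) : AllFramesE Z κ' T := by
  classical
  intro a ha b hb u hu v hv hab hau hav hbu hbv huv
  have h := hF a ha b hb u hu v hv hab hau hav hbu hbv huv
  unfold FrameE at h ⊢
  refine HasTOK4s.flip (q := q) ?_ ?_ h
  · -- degree in frameG at most two
    have hsub : ∃ p, (frameG Z a b u v).neighborSet q ⊆ insert p (Z.neighborSet q) := by
      by_cases h1 : q = a ∨ q = b
      · rcases h1 with h1 | h1
        · refine ⟨b, ?_⟩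
          intro y hy
          rw [SimpleGraph.mem_neighborSet, frameG_adj] at hy
          rcases hy.2 with h2 | h2 | h2
          · exact Or.inr h2
          · rw [Sym2.eq_iff] at h2
            rcases h2 with ⟨-, h3⟩ | ⟨h3, -⟩
            · exact Or.inl h3
            · exact absurd (h1.symm.trans h3) hab
          · rw [Sym2.eq_iff] at h2
            rcases h2 with ⟨h3, -⟩ | ⟨h3, -⟩
            · exact absurd (h1.symm.trans h3) hau
            · exact absurd (h1.symm.trans h3) hav
        · refine ⟨a, ?_⟩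
          intro y hy
          rw [SimpleGraph.mem_neighborSet, frameG_adj] at hy
          rcases hy.2 with h2 | h2 | h2
          · exact Or.inr h2
          · rw [Sym2.eq_iff] at h2
            rcases h2 with ⟨h3, -⟩ | ⟨-, h3⟩
            · exact absurd (h1.symm.trans h3).symm hab
            · exact Or.inl h3
          · rw [Sym2.eq_iff] at h2
            rcases h2 with ⟨h3, -⟩ | ⟨h3, -⟩
            · exact absurd (h1.symm.trans h3) hbu
            · exact absurd (h1.symm.trans h3) hbv
      · push Not at h1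
        by_cases h2 : q = u ∨ q = v
        · rcases h2 with h2 | h2
          · refine ⟨v, ?_⟩
            intro y hy
            rw [SimpleGraph.mem_neighborSet, frameG_adj] at hy
            rcases hy.2 with h3 | h3 | h3
            · exact Or.inr h3
            · rw [Sym2.eq_iff] at h3
              rcases h3 with ⟨h4, -⟩ | ⟨h4, -⟩
              · exact absurd h4 h1.1
              · exact absurd h4 h1.2
            · rw [Sym2.eq_iff] at h3
              rcases h3 with ⟨-, h4⟩ | ⟨h4, -⟩
              · exact Or.inl h4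
              · exact absurd (h2.symm.trans h4) huv
          · refine ⟨u, ?_⟩
            intro y hy
            rw [SimpleGraph.mem_neighborSet, frameG_adj] at hy
            rcases hy.2 with h3 | h3 | h3
            · exact Or.inr h3
            · rw [Sym2.eq_iff] at h3
              rcases h3 with ⟨h4, -⟩ | ⟨h4, -⟩
              · exact absurd h4 h1.1
              · exact absurd h4 h1.2
            · rw [Sym2.eq_iff] at h3
              rcases h3 with ⟨h4, -⟩ | ⟨-, h4⟩
              · exact absurd (h2.symm.trans h4).symm huv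
              · exact Or.inl h4
        · push Not at h2
          refine ⟨q, ?_⟩
          intro y hy
          rw [SimpleGraph.mem_neighborSet, frameG_adj] at hy
          rcases hy.2 with h3 | h3 | h3
          · exact Or.inr h3
          · rw [Sym2.eq_iff] at h3
            rcases h3 with ⟨h4, -⟩ | ⟨h4, -⟩
            · exact absurd h4 h1.1
            · exact absurd h4 h1.2
          · rw [Sym2.eq_iff] at h3
            rcases h3 with ⟨h4, -⟩ | ⟨h4, -⟩
            · exact absurd h4 h2.1
            · exact absurd h4 h2.2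
    obtain ⟨p, hp⟩ := hsub
    have h1 := Set.ncard_le_ncard hp (Set.toFinite _)
    have h2 := Set.ncard_insert_le p (Z.neighborSet q)
    omega
  · intro x y hxy
    by_cases hadj : Z.Adj x y
    · rw [cE_of_adj hadj, cE_of_adj hadj, hκ x, hκ y]; ring
    · rw [cE_of_not_adj hadj, cE_of_not_adj hadj]
      unfold vl
      rw [hκ x, hκ y]; ring

/-- The edges of `Z` meeting `Y`. -/
def restr (Z : SimpleGraph V) (Y : Set V) : SimpleGraph V where
  Adj u v := Z.Adj u v ∧ (u ∈ Y ∨ v ∈ Y)
  symm := ⟨fun _ _ h => ⟨h.1.symm, h.2.symm⟩⟩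
  loopless := ⟨fun _ h => h.1.ne rfl⟩

lemma restr_adj {Z : SimpleGraph V} {Y : Set V} {u v : V} :
    (restr Z Y).Adj u v ↔ Z.Adj u v ∧ (u ∈ Y ∨ v ∈ Y) := Iff.rfl

lemma restr_le (Z : SimpleGraph V) (Y : Set V) : restr Z Y ≤ Z := fun _ _ h => h.1

lemma Nb_restr (Z : SimpleGraph V) {Y Y' : Set V} (h : Y' ⊆ Y) : Nb (restr Z Y) Y' = Nb Z Y' := by
  apply Nb_congr
  intro u v hu _
  rw [restr_adj]
  exact ⟨fun h1 => h1.1, fun h1 => ⟨h1, Or.inl (h hu)⟩⟩

lemma fO_restr (Z : SimpleGraph V) (κ : V → ZMod 2) {Y Y' : Set V} (h : Y' ⊆ Y) :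
    fO (restr Z Y) κ Y' = fO Z κ Y' := by
  apply fO_congr
  intro u v hu
  rw [restr_adj]
  exact ⟨fun h1 => ⟨h1.1.1, h1.2⟩, fun h1 => ⟨⟨h1.1, Or.inl (h hu)⟩, h1.2⟩⟩

lemma neighborSet_restr (Z : SimpleGraph V) {Y : Set V} {s : V} (h : s ∈ Y) :
    (restr Z Y).neighborSet s = Z.neighborSet s := by
  ext v
  simp only [SimpleGraph.mem_neighborSet, restr_adj]
  exact ⟨fun h1 => h1.1, fun h1 => ⟨h1, Or.inl h⟩⟩

/-- Frames of a sub-society lift by a linkage. -/
theorem Soc.lift_sub [Finite V] {md : Bool} {Z : SimpleGraph V} {κ : V → ZMod 2} {S T : Set V}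
    (hS : Soc md Z κ S T) {Y : Set V} (hY : Y ⊆ S) (h4 : (Nb Z Y).ncard = 4)
    (hlink : ∀ X, Y ⊆ X → X ⊆ S → 4 ≤ (Nb Z X).ncard)
    (hF : AllFramesE (restr Z Y) κ (Nb Z Y)) : AllFramesE Z κ T := by
  classical
  obtain ⟨n, hn, hn'⟩ := exists_enum h4
  have hYT : Disjoint Y T := hS.disj.mono_left hY
  have hlk : ∀ Y' : Set V, Y ⊆ Y' → Disjoint Y' T → 4 ≤ (Nb Z Y').ncard := by
    intro Y' h1 h2
    have h3 := hlink (Y' ∩ S) (Set.subset_inter h1 hY) Set.inter_subset_right
    refine h3.trans (Set.ncard_le_ncard ?_ (Set.toFinite _))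
    rintro v ⟨hv, u, hu, h⟩
    refine ⟨?_, u, hu.1, h⟩
    intro hvY
    rcases hS.edge_mem v u h.symm with h5 | h5
    · exact hv ⟨hvY, h5⟩
    · exact (Set.disjoint_left.1 h2) hvY h5
  obtain ⟨t, P, h1, h2, h3, -, h5⟩ := linkage_of_Nb hn hn'.symm hYT hlk
  have hTT : ∀ a ∈ T, ∀ b ∈ T, ¬ Z.Adj a b := by
    intro a ha b hb h
    rcases hS.edge_S a b h with h6 | h6
    · exact (Set.disjoint_left.1 hS.disj) h6 ha
    · exact (Set.disjoint_left.1 hS.disj) h6 hb
  refine AllFramesE.of_linkage (restr_le Z Y) hS.T4 hTT ?_ n t P ?_ (fun i => (h1 i).1)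
    (fun i => (h1 i).2) h5 ?_ hF
  · intro a ha b hb h
    rcases h.2 with h6 | h6
    · exact ha.1 h6
    · exact hb.1 h6
  · intro i
    rw [← hn']; exact ⟨i, rfl⟩
  · intro i x hx hxs
    obtain ⟨w, hw⟩ := hxs
    have hxY : x ∉ Y := h2 i x hx
    have hwY : w ∈ Y := hw.2.resolve_left hxY
    exact h3 i x hx ⟨hxY, w, hwY, hw.1.symm⟩

/-- The sub-society of a four-set, given its numerical conditions. -/
lemma Soc.sub_soc {md : Bool} {Z : SimpleGraph V} {κ κ' : V → ZMod 2} {S T : Set V}
    (hS : Soc md Z κ S T) {Y : Set V} (hY : Y ⊆ S) (h4 : (Nb Z Y).ncard = 4)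
    (h1 : beta κ' (Nb Z Y) < fO Z κ' Y)
    (h2 : ∀ Y' ⊆ Y, Y'.Nonempty → (Nb Z Y').ncard ≤ 3 → fO Z κ' Y' ≤ beta κ' (Nb Z Y')) :
    Soc false (restr Z Y) κ' Y (Nb Z Y) where
  T4 := h4
  disj := by
    rw [Set.disjoint_left]
    intro x hx hx'
    exact hx'.1 hx
  edge_mem := by
    intro u v h
    rcases h.2 with h3 | h3
    · exact Or.inl h3
    · rcases mem_or_Nb' h3 h.1.symm with h4 | h4
      · exact Or.inl h4
      · exact Or.inr h4
  edge_S := fun u v h => h.2
  M1 := by
    rw [fO_restr Z κ' subset_rfl]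
    show beta κ' (Nb Z Y) + 1 ≤ fO Z κ' Y
    linarith
  TT := fun h => absurd h (by decide)
  M2 := by
    intro Y' hY' hne hc
    rw [Nb_restr Z hY'] at hc ⊢
    rw [fO_restr Z κ' hY']
    exact h2 Y' hY' hne hc
  C1 := by
    intro s hs
    rw [neighborSet_restr Z hs]
    exact hS.C1 s (hY hs)
  C2 := by
    intro Y' hY' hc
    rw [Nb_restr Z hY']
    exact hS.C2 Y' (hY'.trans hY) hc
where
  mem_or_Nb' {Z : SimpleGraph V} {Y : Set V} {u v : V} (hu : u ∈ Y) (h : Z.Adj u v) :
      v ∈ Y ∨ v ∈ Nb Z Y := by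
    by_cases hv : v ∈ Y
    · exact Or.inl hv
    · exact Or.inr ⟨hv, u, hu, h⟩

/-- No dense proper four-set in a minimal counterexample (with the colour of one pendant boundary
vertex `q` flipped or not). -/
theorem MinCE.no_sub [Finite V] {md : Bool} {Z : SimpleGraph V} {κ κ' : V → ZMod 2}
    {S T : Set V} (hM : MinCE md Z κ S T) {Y : Set V} (hY : Y ⊆ S) (hne : Y ≠ S) (h4 : (Nb Z Y).ncard = 4)
    (hlink : ∀ X, Y ⊆ X → X ⊆ S → 4 ≤ (Nb Z X).ncard)
    (h1 : beta κ' (Nb Z Y) < fO Z κ' Y)
    (h2 : ∀ Y' ⊆ Y, Y'.Nonempty → (Nb Z Y').ncard ≤ 3 → fO Z κ' Y' ≤ beta κ' (Nb Z Y'))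
    (hκ : κ' = κ ∨ ∃ q, (∀ x, κ' x = κ x + ind q x) ∧
      ((restr Z Y).neighborSet q).ncard ≤ 1) : False := by
  apply hM.notAll
  apply hM.soc.lift_sub hY h4 hlink
  have hF : AllFramesE (restr Z Y) κ' (Nb Z Y) := by
    refine hM.HD _ _ _ _ (hM.soc.sub_soc hY h4 h1 h2) (Or.inr (Or.inl ?_))
    exact Set.ncard_lt_ncard (lt_of_le_of_ne hY hne) (Set.toFinite _)
  rcases hκ with hκ | ⟨q, hκ, hdeg⟩
  · rw [hκ] at hF; exact hF
  · refine AllFramesE.flip (q := q) hdeg ?_ hF
    intro x
    rw [hκ x, add_assoc, CharTwo.add_self_eq_zero, add_zero]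

end Pool.Agent.Helper57.TD
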