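import Pool.Agent.Helper57.TD.Rep

/-!
# Reduction R1: choice of the vertex, lifting data
-/

set_option autoImplicit false

namespace Pool.Agent.Helper57.TD

open SimpleGraph Pool.Agent.Helper57.TOK Pool.Agent.Helper82.TK

variable {V : Type*}

/-- Number of elements of `N` whose colour differs from `c`. -/
lemma exists_majority [Finite V] (κ : V → ZMod 2) {N : Set V} (h3 : N.ncard = 3) :
    ∃ c : ZMod 2, {z | z ∈ N ∧ κ z ≠ c}.ncard ≤ 1 := by
  by_contra hcon
  push Not at hcon
  have h0 := hcon 0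
  have h1 := hcon 1
  have hd : Disjoint {z | z ∈ N ∧ κ z ≠ 0} {z | z ∈ N ∧ κ z ≠ 1} := by
    rw [Set.disjoint_left]
    rintro z ⟨-, h2⟩ ⟨-, h3⟩
    rcases zmod2_cases (κ z) with h | h
    · exact h2 h
    · exact h3 h
  have hu : {z | z ∈ N ∧ κ z ≠ 0} ∪ {z | z ∈ N ∧ κ z ≠ 1} ⊆ N := by
    rintro z (h | h)
    · exact h.1
    · exact h.1
  have h2 := Set.ncard_le_ncard hu (Set.toFinite _)
  rw [Set.ncard_union_eq hd (Set.toFinite _) (Set.toFinite _)] at h2
  omega

/-- `beta` of three vertices in terms of the minority count. -/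
lemma beta_of_majority [Finite V] {κ : V → ZMod 2} {N : Set V} (h3 : N.ncard = 3) {c : ZMod 2}
    (hc : {z | z ∈ N ∧ κ z ≠ c}.ncard ≤ 1) :
    beta κ N = 1 - ({z | z ∈ N ∧ κ z ≠ c}.ncard : ℤ) := by
  by_cases hm : Mono κ N
  · have h0 : {z | z ∈ N ∧ κ z ≠ c}.ncard = 0 := by
      by_contra hne
      have hpos : 0 < {z | z ∈ N ∧ κ z ≠ c}.ncard := Nat.pos_of_ne_zero hne
      obtain ⟨z, hz, hzc⟩ := (Set.ncard_pos (Set.toFinite _)).1 hpos
      have : N ⊆ {z | z ∈ N ∧ κ z ≠ c} := by
        intro x hx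
        exact ⟨hx, fun h => hzc ((hm z hz x hx).trans h)⟩
      have := Set.ncard_le_ncard this (Set.toFinite _)
      omega
    rw [beta_of_mono hm, h3, h0]; norm_num
  · have h1 : {z | z ∈ N ∧ κ z ≠ c}.ncard = 1 := by
      by_contra hne
      have h0 : {z | z ∈ N ∧ κ z ≠ c}.ncard = 0 := by omega
      apply hm
      intro x hx y hy
      rw [Set.ncard_eq_zero (Set.toFinite _)] at h0
      have hx' : κ x = c := by
        by_contra h
        have : x ∈ {z | z ∈ N ∧ κ z ≠ c} := ⟨hx, h⟩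
        rw [h0] at this; exact this
      have hy' : κ y = c := by
        by_contra h
        have : y ∈ {z | z ∈ N ∧ κ z ≠ c} := ⟨hy, h⟩
        rw [h0] at this; exact this
      rw [hx', hy']
    rw [beta_of_not_mono hm, h3, h1]; norm_num

/-- Adding vertices one at a time, each with at most `m` odd edges to the outside. -/
lemma fO_union_le [Finite V] {Z : SimpleGraph V} {κ : V → ZMod 2} {B A : Set V} {m : ℤ}
    (h : ∀ a ∈ A, ∀ Y : Set V, B ⊆ Y → a ∉ Y →
      ({w | Z.Adj a w ∧ κ a + κ w = 1 ∧ w ∉ Y}.ncard : ℤ) ≤ m) (hd : Disjoint A B) :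
    fO Z κ (B ∪ A) ≤ fO Z κ B + (m - 2) * (A.ncard : ℤ) := by
  have hfin : A.Finite := Set.toFinite _
  induction A, hfin using Set.Finite.induction_on with
  | empty => simp
  | @insert a A' ha hA' ih =>
    have hd' : Disjoint A' B := hd.mono_left (Set.subset_insert a A')
    have haB : a ∉ B := (Set.disjoint_left.1 hd) (Set.mem_insert a A')
    have ih' := ih (fun x hx => h x (Set.mem_insert_of_mem a hx)) hd'
    have haY : a ∉ B ∪ A' := by
      rintro (h1 | h1)
      · exact haB h1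
      · exact ha h1
    have e : B ∪ insert a A' = insert a (B ∪ A') := by
      rw [Set.union_insert]
    rw [e, fO_insert haY]
    have h1 := h a (Set.mem_insert a A') (B ∪ A') Set.subset_union_left haY
    rw [Set.ncard_insert_of_notMem ha hA']
    push_cast
    linarith

/-- Choice of the vertex which replaces `W`. -/
theorem exists_rep_vertex [Finite V] {md : Bool} {Z : SimpleGraph V} {κ : V → ZMod 2}
    {S T : Set V} (hS : Soc md Z κ S T) {W : Set V} (hW : W ⊆ S) (h3 : (Nb Z W).ncard = 3)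
    (hu : ∃ u ∈ W, 3 ≤ (Z.neighborSet u).ncard) :
    ∃ u ∈ W, 3 ≤ (Z.neighborSet u).ncard ∧ fO Z κ W ≤ fO (repG Z W u) κ {u} := by
  classical
  obtain ⟨c, hc⟩ := exists_majority κ h3
  have hbeta := beta_of_majority h3 hc
  have hWne : W.Nonempty := by
    obtain ⟨u, hu, -⟩ := hu; exact ⟨u, hu⟩
  have hM2 := hS.M2 W hW hWne (by omega)
  -- value at the new vertex
  have hval : ∀ u ∈ W, fO (repG Z W u) κ {u} =
      ({z | z ∈ Nb Z W ∧ κ u + κ z = 1}.ncard : ℤ) - 2 := by
    intro u hu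
    rw [fO_singleton]
    have : {w | (repG Z W u).Adj u w ∧ κ u + κ w = 1} = {z | z ∈ Nb Z W ∧ κ u + κ z = 1} := by
      ext w
      simp only [Set.mem_ofPred_eq, repG_adj_u hu]
    rw [this]
  by_cases hcase : ∃ u ∈ W, 3 ≤ (Z.neighborSet u).ncard ∧ κ u ≠ c
  · obtain ⟨u, hu, hdeg, huc⟩ := hcase
    refine ⟨u, hu, hdeg, ?_⟩
    rw [hval u hu]
    have hsplit : {z | z ∈ Nb Z W ∧ κ u + κ z = 1}.ncard + {z | z ∈ Nb Z W ∧ κ z ≠ c}.ncard =
        3 := by
      rw [← h3, ← Set.ncard_union_eq _ (Set.toFinite _) (Set.toFinite _)]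
      · congr 1
        ext z
        simp only [Set.mem_union, Set.mem_ofPred_eq]
        constructor
        · rintro (h | h)
          · exact h.1
          · exact h.1
        · intro h
          by_cases hz : κ z = c
          · left; exact ⟨h, add_eq_one_iff.2 (fun hh => huc (hh.trans hz))⟩
          · right; exact ⟨h, hz⟩
      · rw [Set.disjoint_left]
        rintro z ⟨-, h4⟩ ⟨-, h5⟩
        exact (add_eq_one_iff.1 h4) (eq_of_ne_of_ne huc h5)
    have hsplit' : ({z | z ∈ Nb Z W ∧ κ u + κ z = 1}.ncard : ℤ) +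
        ({z | z ∈ Nb Z W ∧ κ z ≠ c}.ncard : ℤ) = 3 := by exact_mod_cast hsplit
    linarith
  · push Not at hcase
    obtain ⟨u, hu, hdeg⟩ := hu
    have huc := hcase u hu hdeg
    refine ⟨u, hu, hdeg, ?_⟩
    rw [hval u hu]
    have hset : {z | z ∈ Nb Z W ∧ κ u + κ z = 1} = {z | z ∈ Nb Z W ∧ κ z ≠ c} := by
      ext z
      simp only [Set.mem_ofPred_eq]
      rw [add_eq_one_iff, huc]
      exact ⟨fun h => ⟨h.1, fun hh => h.2 hh.symm⟩, fun h => ⟨h.1, fun hh => h.2 hh.symm⟩⟩
    rw [hset]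
    set k := {z | z ∈ Nb Z W ∧ κ z ≠ c}.ncard with hk
    -- black vertices of W
    set B := {x | x ∈ W ∧ κ x ≠ c} with hB
    set A := {x | x ∈ W ∧ κ x = c} with hA
    have hBA : B ∪ A = W := by
      ext x
      simp only [hA, hB, Set.mem_union, Set.mem_ofPred_eq]
      constructor
      · rintro (h | h)
        · exact h.1
        · exact h.1
      · intro h
        by_cases hx : κ x = c
        · exact Or.inr ⟨h, hx⟩
        · exact Or.inl ⟨h, hx⟩
    have hfB : fO Z κ B ≤ 0 := by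
      have h1 := fO_union_le (Z := Z) (κ := κ) (B := ∅) (A := B) (m := 2) ?_
        (Set.disjoint_empty _)
      · rw [Set.empty_union] at h1
        have h2 : fO Z κ ∅ = 0 := by unfold fO; exact fden_empty _
        rw [h2] at h1
        linarith
      · intro a ha Y _ _
        have h2 : (Z.neighborSet a).ncard ≤ 2 := by
          by_contra hlt
          push Not at hlt
          exact ha.2 (hcase a ha.1 (by omega))
        have h4 : {w | Z.Adj a w ∧ κ a + κ w = 1 ∧ w ∉ Y} ⊆ Z.neighborSet a := fun w hw => hw.1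
        have h5 := Set.ncard_le_ncard h4 (Set.toFinite _)
        exact_mod_cast h5.trans h2
    have hfW : fO Z κ W ≤ 0 + ((k : ℤ) - 2) * (A.ncard : ℤ) := by
      rw [← hBA]
      refine (fO_union_le (B := B) (A := A) (m := (k : ℤ)) ?_ ?_).trans (by linarith)
      · intro a ha Y hY _
        have h4 : {w | Z.Adj a w ∧ κ a + κ w = 1 ∧ w ∉ Y} ⊆ {z | z ∈ Nb Z W ∧ κ z ≠ c} := by
          rintro w ⟨h5, h6, h7⟩
          have hwc : κ w ≠ c := by
            intro hh
            apply add_eq_one_iff.1 h6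
            rw [ha.2, hh]
          refine ⟨⟨fun hwW => h7 (hY ⟨hwW, hwc⟩), a, ha.1, h5⟩, hwc⟩
        exact_mod_cast Set.ncard_le_ncard h4 (Set.toFinite _)
      · rw [Set.disjoint_left]
        rintro x ⟨-, h4⟩ ⟨-, h5⟩
        exact h5 h4
    have hApos : 1 ≤ (A.ncard : ℤ) := by
      have : 0 < A.ncard := (Set.ncard_pos (Set.toFinite _)).2 ⟨u, hu, huc⟩
      exact_mod_cast this
    have hk1 : (k : ℤ) ≤ 1 := by exact_mod_cast hc
    nlinarith

/-- Lifting data: the edges of `repG Z W u` are realised by paths of `Z`. -/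
theorem rep_topo [Finite V] {md : Bool} {Z : SimpleGraph V} {κ : V → ZMod 2}
    {S T : Set V} (hS : Soc md Z κ S T) {W : Set V} (hW : W ⊆ S) (h3 : (Nb Z W).ncard = 3)
    {u : V} (hu : u ∈ W) (hdeg : 3 ≤ (Z.neighborSet u).ncard) :
    ∃ lab : V → Sym2 V, ∀ x y, (repG Z W u).Adj x y → ∃ R : Z.Walk x y, R.IsPath ∧
      ∀ z ∈ R.support, z = x ∨ z = y ∨ (lab z = s(x, y) ∧ z ∉ supp (repG Z W u) ∪ T) := by
  classical
  have hWT : ∀ z ∈ W, z ∉ T := fun z hz => (Set.disjoint_left.1 hS.disj) (hW hz)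
  have hsuppW : ∀ z ∈ W, z ≠ u → z ∉ supp (repG Z W u) := by
    rintro z hz hzu ⟨w, h1, h2 | h2 | h2⟩
    · exact h2.1 hz
    · exact hzu h2.1
    · exact h2.2.1 hz
  have huN : u ∉ Nb Z W := fun h => h.1 hu
  -- the fan
  have hfan : Fan (restr Z W) u (Nb Z W) 3 := by
    apply fan_of_Nb huN
    intro Y huY hd hreach
    have hYW : Y ⊆ W := by
      intro y hy
      obtain ⟨p, hp⟩ := hreach y hy
      -- walk inside Y from u stays in W
      have key : ∀ (a b : V) (q : (restr Z W).Walk a b), (∀ z ∈ q.support, z ∈ Y) → a ∈ W →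
          b ∈ W := by
        intro a b q
        induction q with
        | nil => intro _ h; exact h
        | @cons a z b h q ih =>
          intro hq ha
          apply ih (fun x hx => hq x (by rw [Walk.support_cons]; exact List.mem_cons_of_mem _ hx))
          by_contra hz
          have hzN : z ∈ Nb Z W := ⟨hz, a, ha, h.1⟩
          have hzY : z ∈ Y := hq z (by rw [Walk.support_cons]; exact List.mem_cons_of_mem _ q.start_mem_support)
          exact (Set.disjoint_left.1 hd) hzY hzN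
      exact key u y p hp hu
    rw [Nb_restr Z hYW]
    by_cases h2 : 2 ≤ Y.ncard
    · exact hS.C2 Y (hYW.trans hW) h2
    · have hY1 : Y.ncard = 1 := by
        have : 0 < Y.ncard := (Set.ncard_pos (Set.toFinite _)).2 ⟨u, huY⟩
        omega
      obtain ⟨y, rfl⟩ := Set.ncard_eq_one.1 hY1
      rw [Set.mem_singleton_iff] at huY
      subst huY
      rw [Nb_singleton]
      exact hdeg
  obtain ⟨b, P, hP, hPB, hPd⟩ := hfan
  have hbinj : Function.Injective b := Fan.injective_end huN (fun i => (hP i).1) hPd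
  have hrange : Set.range b = Nb Z W := by
    apply Set.eq_of_subset_of_ncard_le _ _ (Set.toFinite _)
    · rintro _ ⟨i, rfl⟩; exact (hP i).1
    · rw [h3, ← Set.image_univ, Set.ncard_image_of_injective _ hbinj, Set.ncard_univ]
      simp
  -- vertices of the fan
  have hPW : ∀ i, ∀ x ∈ (P i).support, x = b i ∨ x ∈ W := by
    intro i x hx
    have key : ∀ (a c : V) (q : (restr Z W).Walk a c), ∀ x ∈ q.support,
        a ∈ W ∪ Nb Z W → x ∈ W ∪ Nb Z W := by
      intro a c q
      induction q with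
      | nil =>
        intro x hx ha
        simp only [Walk.support_nil, List.mem_cons, List.not_mem_nil, or_false] at hx
        exact hx ▸ ha
      | @cons a z c h q ih =>
        intro x hx ha
        rw [Walk.support_cons, List.mem_cons] at hx
        rcases hx with rfl | hx
        · exact ha
        · apply ih x hx
          by_cases hz : z ∈ W
          · exact Or.inl hz
          · exact Or.inr ⟨hz, a, h.2.resolve_right hz, h.1⟩
    rcases key _ _ (P i) x hx (Or.inl hu) with h | h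
    · exact Or.inr h
    · exact Or.inl (hPB i x hx h)
  let lab : V → Sym2 V := fun w =>
    if h : ∃ i, w ∈ (P i).support then s(u, b h.choose) else s(u, u)
  have hlab : ∀ i, ∀ w ∈ (P i).support, w ≠ u → lab w = s(u, b i) := by
    intro i w hw hwu
    have hex : ∃ i, w ∈ (P i).support := ⟨i, hw⟩
    have : hex.choose = i := by
      by_contra hne
      exact hwu (hPd _ _ hne w hex.choose_spec hw)
    show (if h : ∃ i, w ∈ (P i).support then s(u, b h.choose) else s(u, u)) = s(u, b i)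
    rw [dif_pos hex, this]
  -- path from u to a vertex of Nb Z W
  have hgo : ∀ y ∈ Nb Z W, ∃ R : Z.Walk u y, R.IsPath ∧
      ∀ z ∈ R.support, z = u ∨ z = y ∨ (lab z = s(u, y) ∧ z ∉ supp (repG Z W u) ∪ T) := by
    intro y hy
    rw [← hrange] at hy
    obtain ⟨i, rfl⟩ := hy
    refine ⟨(P i).mapLe (restr_le Z W), (Walk.isPath_mapLe _).2 (hP i).2, ?_⟩
    intro z hz
    rw [Walk.support_mapLe_eq_support] at hz
    by_cases hzu : z = u
    · exact Or.inl hzu
    · rcases hPW i z hz with h | h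
      · exact Or.inr (Or.inl h)
      · refine Or.inr (Or.inr ⟨hlab i z hz hzu, ?_⟩)
        rintro (h4 | h4)
        · exact hsuppW z h hzu h4
        · exact hWT z h h4
  refine ⟨lab, ?_⟩
  rintro x y ⟨hne, h | h | h⟩
  · refine ⟨Walk.cons h.2.2 Walk.nil, ?_, ?_⟩
    · rw [Walk.cons_isPath_iff]
      exact ⟨Walk.IsPath.nil, by simpa using hne⟩
    · intro z hz
      simp only [Walk.support_cons, Walk.support_nil, List.mem_cons, List.not_mem_nil,
        or_false] at hz
      rcases hz with hz | hz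
      · exact Or.inl hz
      · exact Or.inr (Or.inl hz)
  · obtain ⟨h4, h5⟩ := h
    subst h4
    exact hgo y h5
  · obtain ⟨h4, h5⟩ := h
    subst h4
    obtain ⟨R, h6, h7⟩ := hgo x h5
    refine ⟨R.reverse, h6.reverse, ?_⟩
    intro z hz
    rw [Walk.support_reverse, List.mem_reverse] at hz
    rcases h7 z hz with h8 | h8 | ⟨h8, h9⟩
    · exact Or.inr (Or.inl h8)
    · exact Or.inl h8
    · exact Or.inr (Or.inr ⟨h8.trans Sym2.eq_swap, h9⟩)

/-- Condition after R1. -/
def Ind (Z : SimpleGraph V) (S : Set V) : Prop :=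
  ∀ Y ⊆ S, 2 ≤ Y.ncard → (Nb Z Y).ncard ≤ 3 →
    ∀ s ∈ Y, (Z.neighborSet s).ncard = 2 ∧ ∀ s' ∈ Y, ¬ Z.Adj s s'

/-- A set of at least two vertices with at most three neighbours which contains a vertex of degree
at least three cannot exist in a minimal counterexample. -/
theorem MinCE.no_three [Finite V] {md : Bool} {Z : SimpleGraph V} {κ : V → ZMod 2}
    {S T : Set V} (hM : MinCE md Z κ S T)
    (htopo : ∀ (Z' : SimpleGraph V) (lab : V → Sym2 V),
      (∀ x y, Z'.Adj x y → ∃ R : Z.Walk x y, R.IsPath ∧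
        ∀ z ∈ R.support, z = x ∨ z = y ∨ (lab z = s(x, y) ∧ z ∉ supp Z' ∪ T)) →
      (∀ a ∈ T, ∀ b ∈ T, ¬ Z'.Adj a b) → Goal md Z' κ T → Goal md Z κ T)
    {Y : Set V} (hY : Y ⊆ S) (h2 : 2 ≤ Y.ncard) (h3 : (Nb Z Y).ncard ≤ 3)
    (hu : ∃ u ∈ Y, 3 ≤ (Z.neighborSet u).ncard) : False := by
  classical
  have hS := hM.soc
  -- a maximal such set
  have hfin : {X : Set V | Y ⊆ X ∧ X ⊆ S ∧ (Nb Z X).ncard ≤ 3}.Finite := Set.toFinite _
  obtain ⟨W, hWm, hWmax⟩ := Set.exists_max_image _ (fun X : Set V => X.ncard) hfin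
    ⟨Y, subset_rfl, hY, h3⟩
  obtain ⟨hYW, hW, hW3⟩ := hWm
  have hW2 : 2 ≤ W.ncard := h2.trans (Set.ncard_le_ncard hYW (Set.toFinite _))
  have hN3 : (Nb Z W).ncard = 3 := le_antisymm hW3 (hS.C2 W hW hW2)
  have hmax : ∀ X, W ⊆ X → X ⊆ S → X ≠ W → 4 ≤ (Nb Z X).ncard := by
    intro X hWX hX hne
    by_contra hlt
    push Not at hlt
    have h4 := hWmax X ⟨hYW.trans hWX, hX, by omega⟩
    have h5 := Set.ncard_lt_ncard (lt_of_le_of_ne hWX hne.symm) (Set.toFinite _)
    exact absurd h4 (not_le.2 h5)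
  obtain ⟨u, huY, hudeg⟩ := hu
  obtain ⟨u, huW, hudeg, hf⟩ := exists_rep_vertex hS hW hN3 ⟨u, hYW huY, hudeg⟩
  have hsoc := hS.rep hW hN3 hmax huW hf
  have hsm : Smaller (repG Z W u) κ (insert u (S \ W)) Z κ S := by
    left
    have h6 : (insert u (S \ W)).ncard ≤ (S \ W).ncard + 1 := Set.ncard_insert_le _ _
    have h7 := Set.ncard_sdiff_add_ncard_of_subset hW (Set.toFinite _)
    omega
  obtain ⟨lab, hlab⟩ := rep_topo hS hW hN3 huW hudeg
  apply hM.bad
  refine htopo (repG Z W u) lab hlab ?_ (hM.IH _ _ _ _ hsoc hsm)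
  intro a ha b hb hab
  rcases hsoc.edge_S a b hab with h | h
  · exact (Set.disjoint_left.1 hsoc.disj) h ha
  · exact (Set.disjoint_left.1 hsoc.disj) h hb

/-- R1. -/
theorem MinCE.ind [Finite V] {md : Bool} {Z : SimpleGraph V} {κ : V → ZMod 2}
    {S T : Set V} (hM : MinCE md Z κ S T)
    (htopo : ∀ (Z' : SimpleGraph V) (lab : V → Sym2 V),
      (∀ x y, Z'.Adj x y → ∃ R : Z.Walk x y, R.IsPath ∧
        ∀ z ∈ R.support, z = x ∨ z = y ∨ (lab z = s(x, y) ∧ z ∉ supp Z' ∪ T)) →
      (∀ a ∈ T, ∀ b ∈ T, ¬ Z'.Adj a b) → Goal md Z' κ T → Goal md Z κ T) : Ind Z S := by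
  intro Y hY h2 h3 s hs
  have hle : ∀ u ∈ Y, (Z.neighborSet u).ncard = 2 := by
    intro u hu
    by_contra hne
    have h4 := hM.soc.C1 u (hY hu)
    exact hM.no_three htopo hY h2 h3 ⟨u, hu, by omega⟩
  refine ⟨hle s hs, ?_⟩
  intro s' hs' hadj
  -- the pair {s, s'} has at most two neighbours
  have h4 : ({s, s'} : Set V) ⊆ S := by
    intro x hx
    rcases hx with rfl | hx
    · exact hY hs
    · rw [Set.mem_singleton_iff] at hx; exact hx ▸ hY hs'
  have h5 := hM.soc.C2 {s, s'} h4 (by rw [Set.ncard_pair hadj.ne])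
  have h6 : Nb Z {s, s'} ⊆ (Z.neighborSet s \ {s'}) ∪ (Z.neighborSet s' \ {s}) := by
    rintro v ⟨hv, w, hw, hvw⟩
    simp only [Set.mem_insert_iff, Set.mem_singleton_iff, not_or] at hv
    rcases hw with rfl | hw
    · exact Or.inl ⟨hvw, hv.2⟩
    · rw [Set.mem_singleton_iff] at hw
      subst hw
      exact Or.inr ⟨hvw, hv.1⟩
  have h7 := Set.ncard_le_ncard h6 (Set.toFinite _)
  have h8 := Set.ncard_union_le (Z.neighborSet s \ {s'}) (Z.neighborSet s' \ {s})
  have h9 := Set.ncard_sdiff_singleton_add_one (s := Z.neighborSet s) (a := s') hadj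
    (Set.toFinite _)
  have h10 := Set.ncard_sdiff_singleton_add_one (s := Z.neighborSet s') (a := s) hadj.symm
    (Set.toFinite _)
  rw [hle s hs] at h9
  rw [hle s' hs'] at h10
  omega

end Pool.Agent.Helper57.TD
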