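import Pool.Agent.Helper57.TD.Core
import Pool.Agent.Helper57.TD.R1
import Pool.Agent.Helper73.TD.Goal
import Pool.Agent.Helper1.TD.FoldStep
import Pool.Agent.Helper1.TD.Theta

/-!
# Assembly: a minimal counterexample gives the core situation
-/

set_option autoImplicit false

namespace Pool.Agent.Helper57.TD

open SimpleGraph Pool.Agent.Helper57.TOK Pool.Agent.Helper82.TK Pool.Agent.Helper1.TD

variable {V : Type*}

lemma Soc.noTT {md : Bool} {Z : SimpleGraph V} {κ : V → ZMod 2} {S T : Set V}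
    (h : Soc md Z κ S T) : ∀ a ∈ T, ∀ b ∈ T, ¬ Z.Adj a b := by
  intro a ha b hb hab
  rcases h.edge_S a b hab with h1 | h1
  · exact (Set.disjoint_left.1 h.disj) h1 ha
  · exact (Set.disjoint_left.1 h.disj) h1 hb

/-- R1. -/
theorem MinCE.ind' [Finite V] {md : Bool} {Z : SimpleGraph V} {κ : V → ZMod 2}
    {S T : Set V} (hM : MinCE md Z κ S T) : Ind Z S := by
  apply hM.ind
  intro Z' lab hR hTT' hF
  refine Goal.of_topo_id lab ?_ hTT' hM.soc.noTT hF
  intro x y hxy
  obtain ⟨R, h1, h2⟩ := hR x y hxy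
  refine ⟨R, h1, fun z hz => ?_⟩
  rcases h2 z hz with h | h | ⟨h, h'⟩
  · exact Or.inl h
  · exact Or.inr (Or.inl h)
  · exact Or.inr (Or.inr ⟨h, fun hh => h' (Or.inl hh), fun hh => h' (Or.inr hh)⟩)

/-- P1 from R1 and the minimum degree. -/
lemma Ind.P1 {Z : SimpleGraph V} {S : Set V} (hI : Ind Z S)
    (hdeg : ∀ s ∈ S, 3 ≤ (Z.neighborSet s).ncard) :
    ∀ Y ⊆ S, 2 ≤ Y.ncard → 4 ≤ (Nb Z Y).ncard := by
  intro Y hY h2
  by_contra hlt
  push Not at hlt
  have hne : Y.Nonempty := by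
    rw [Set.nonempty_iff_ne_empty]
    intro h
    rw [h, Set.ncard_empty] at h2
    omega
  obtain ⟨s, hs⟩ := hne
  have h3 := (hI Y hY h2 (by omega) s hs).1
  have h4 := hdeg s (hY hs)
  omega

lemma oddG_eq_of_proper {Z : SimpleGraph V} {κ : V → ZMod 2} (h : Proper Z κ) :
    oddG Z κ = Z := by
  ext x y
  rw [oddG_adj]
  exact ⟨fun h1 => h1.1, fun h1 => ⟨h1, h x y h1⟩⟩

lemma fO_eq_fden {Z : SimpleGraph V} {κ : V → ZMod 2} (h : Proper Z κ) (Y : Set V) :
    fO Z κ Y = fden Z Y := by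
  unfold fO; rw [oddG_eq_of_proper h]

/-- The core situation. -/
theorem MinCE.core [Finite V] {md : Bool} {Z : SimpleGraph V} {κ : V → ZMod 2}
    {S T : Set V} (hM : MinCE md Z κ S T) (hprop : Proper Z κ)
    (hdeg : ∀ s ∈ S, 3 ≤ (Z.neighborSet s).ncard)
    (hP2 : ∀ Y ⊆ S, Y ≠ S → (Nb Z Y).ncard = 4 → fO Z κ Y ≤ beta κ (Nb Z Y))
    (hP3 : fO Z κ S = thr md κ T) : Core Z κ S T := by
  have hS := hM.soc
  have hP1 := (hM.ind').P1 hdeg
  have hbas : Bas Z S T := ⟨hS.T4, hS.disj, hS.edge_mem, hS.edge_S⟩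
  have hP2' : ∀ Y ⊆ S, Y ≠ S → (Nb Z Y).ncard = 4 → fden Z Y ≤ beta κ (Nb Z Y) := by
    intro Y hY hne h4
    rw [← fO_eq_fden hprop]
    exact hP2 Y hY hne h4
  refine
    { T4 := hS.T4
      disj := hS.disj
      edge_mem := hS.edge_mem
      edge_S := hS.edge_S
      NS := hS.Nb_S hS.S_nonempty
      two := hS.two_le
      prop := hprop
      deg3 := hdeg
      P1 := hP1
      P2 := hP2'
      P3le := ?_
      T3 := core_T3 hbas hprop hM.notAll hP1
      TYPE1 := core_TYPE1 hbas hprop hM.notAll hdeg hP1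
      L1 := core_L1 hbas hprop hM.notAll hP1
      FOLD := core_FOLD hbas hprop hdeg hP1 hP2' ?_ }
  · rw [← fO_eq_fden hprop, hP3]
    exact thr_le md κ T
  · intro y p q hy hq hpq hyp hyq hκ hK hf
    have hyT : y ∉ T := fun h => (Set.disjoint_left.1 hS.disj) hy h
    have hqT : q ∉ T := fun h => (Set.disjoint_left.1 hS.disj) hq h
    have hsoc : Soc md (cutT (foldG Z y p q) T) κ (S \ {y, q}) T :=
      { T4 := hK.bas.T4
        disj := hK.bas.disj
        edge_mem := hK.bas.edge_mem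
        edge_S := hK.bas.edge_S
        M1 := hS.M1.trans hf
        TT := hS.TT
        M2 := hK.M2
        C1 := hK.C1
        C2 := hK.C2 }
    have hG := hM.IH _ _ _ _ hsoc (Or.inl (fold_smaller hy))
    have hle : cutT (foldG Z y p q) T ≤ foldG Z y p q := fun _ _ h => h.1
    exact hM.bad (Goal.of_fold hle hsoc.noTT hS.noTT hpq hyp hyq hκ hyT hqT hG)

/-- No copy of I7. -/
theorem noI7_of_bad {Z : SimpleGraph V} {κ : V → ZMod 2} {T : Set V}
    (hZ : Proper Z κ) (hTT : ∀ a ∈ T, ∀ b ∈ T, ¬ Z.Adj a b) (hbad : ¬ AllFramesE Z κ T) :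
    ¬ ∃ φ : Fin 7 → V, Function.Injective φ ∧ (∀ x y, I7.Adj x y → Z.Adj (φ x) (φ y)) ∧
      T = {φ 0, φ 1, φ 2, φ 3} ∧ Mono κ T := by
  rintro ⟨φ, hφ, h, hT, hm⟩
  apply hbad
  rw [allFramesE_iff hZ, hT]
  have mem : ∀ i : Fin 7, i < 4 → φ i ∈ T := by
    intro i hi
    rw [hT]
    fin_cases i
    · simp
    · simp
    · simp
    · simp
    · exact absurd hi (by decide)
    · exact absurd hi (by decide)
    · exact absurd hi (by decide)
  exact allFrames_I7 φ hφ h (fun i j hi hj => hTT _ (mem i hi) _ (mem j hj))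
    (hm _ (mem 0 (by decide)) _ (mem 1 (by decide)))
    (hm _ (mem 0 (by decide)) _ (mem 2 (by decide)))
    (hm _ (mem 0 (by decide)) _ (mem 3 (by decide)))

/-- No copy of I8. -/
theorem noI8_of_bad {Z : SimpleGraph V} {κ : V → ZMod 2} {T : Set V}
    (hZ : Proper Z κ) (hTT : ∀ a ∈ T, ∀ b ∈ T, ¬ Z.Adj a b) (hbad : ¬ AllFramesE Z κ T) :
    ¬ ∃ φ : Fin 8 → V, Function.Injective φ ∧ (∀ x y, I8.Adj x y → Z.Adj (φ x) (φ y)) ∧
      T = {φ 0, φ 1, φ 2, φ 3} ∧ κ (φ 0) = κ (φ 1) ∧ κ (φ 2) = κ (φ 3) ∧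
        κ (φ 0) + κ (φ 2) = 1 := by
  rintro ⟨φ, hφ, h, hT, h1, h2, h3⟩
  apply hbad
  rw [allFramesE_iff hZ, hT]
  have mem : ∀ i : Fin 8, i < 4 → φ i ∈ T := by
    intro i hi
    rw [hT]
    fin_cases i
    · simp
    · simp
    · simp
    · simp
    · exact absurd hi (by decide)
    · exact absurd hi (by decide)
    · exact absurd hi (by decide)
    · exact absurd hi (by decide)
  exact allFrames_I8 φ hφ h (fun i j hi hj => hTT _ (mem i hi) _ (mem j hj)) h1 h2 h3

/-- The well-founded induction: no minimal counterexample implies the theorem. -/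
theorem goal_of_no_minCE [Finite V] {md : Bool}
    (hD : md = true → ∀ (Z : SimpleGraph V) (κ : V → ZMod 2) (S T : Set V),
      Soc false Z κ S T → AllFramesE Z κ T)
    (hno : ∀ (Z : SimpleGraph V) (κ : V → ZMod 2) (S T : Set V), ¬ MinCE md Z κ S T)
    (Z : SimpleGraph V) (κ : V → ZMod 2) (S T : Set V) (h : Soc md Z κ S T) : Goal md Z κ T := by
  -- lexicographic induction
  have key : ∀ n m : ℕ, ∀ (Z : SimpleGraph V) (κ : V → ZMod 2) (S T : Set V),
      S.ncard = n → meas Z κ = m → Soc md Z κ S T → Goal md Z κ T := by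
    intro n
    induction n using Nat.strong_induction_on with
    | _ n ihn =>
      intro m
      induction m using Nat.strong_induction_on with
      | _ m ihm =>
        intro Z κ S T hn hm hS
        by_contra hbad
        have hIH : ∀ (Z' : SimpleGraph V) (κ' : V → ZMod 2) (S' T' : Set V), Soc md Z' κ' S' T' →
            Smaller Z' κ' S' Z κ S → Goal md Z' κ' T' := by
          intro Z' κ' S' T' hS' hsm
          rcases hsm with h1 | ⟨h1, h2⟩
          · exact ihn S'.ncard (by omega) (meas Z' κ') Z' κ' S' T' rfl rfl hS'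
          · exact ihm (meas Z' κ') (by omega) Z' κ' S' T' (by omega) rfl hS'
        refine hno Z κ S T ⟨hS, hbad, hIH, ?_⟩
        intro Z' κ' S' T' hS' hsm
        cases md with
        | true => exact hD rfl Z' κ' S' T' hS'
        | false =>
          rcases hsm with h1 | h1
          · exact absurd h1 (by decide)
          · exact hIH Z' κ' S' T' hS' h1
  exact key S.ncard (meas Z κ) Z κ S T rfl rfl h

end Pool.Agent.Helper57.TD
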