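import Pool.Agent.Helper57.TD.Defs

/-!
# Theorem D: the core situation and the list of small four-sets

`Core Z κ S T` collects everything the reductions give for a minimal counterexample in both modes
(`CoreD`, `CoreB` add what is special to Theorem D and to its tight version); the rest of
the proof (files `LL`, `Class`, `ClaimA*`, `Layer*`, `Top*`) derives a contradiction from it.
A four-set is a set `A ⊆ S` with `(Nb Z A).ncard = 4`.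
-/

set_option autoImplicit false

namespace Pool.Agent.Helper57.TD

open SimpleGraph Pool.Agent.Helper57.TOK Pool.Agent.Helper82.TK

variable {V : Type*}

/-- The core situation. All edges are odd (`prop`), every vertex of `S` has degree at least three. -/
structure Core (Z : SimpleGraph V) (κ : V → ZMod 2) (S T : Set V) : Prop where
  T4 : T.ncard = 4
  disj : Disjoint S T
  edge_mem : ∀ u v, Z.Adj u v → u ∈ S ∪ T
  edge_S : ∀ u v, Z.Adj u v → u ∈ S ∨ v ∈ S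
  NS : Nb Z S = T
  two : 2 ≤ S.ncard
  prop : Proper Z κ
  deg3 : ∀ s ∈ S, 3 ≤ (Z.neighborSet s).ncard
  P1 : ∀ Y ⊆ S, 2 ≤ Y.ncard → 4 ≤ (Nb Z Y).ncard
  P2 : ∀ Y ⊆ S, Y ≠ S → (Nb Z Y).ncard = 4 → fden Z Y ≤ beta κ (Nb Z Y)
  P3le : fden Z S ≤ beta κ T + 1
  T3 : ∀ c d, d ∈ S → c ≠ d → (Z.neighborSet d).ncard = 3 →
    ¬ Z.neighborSet d ⊆ Z.neighborSet c
  TYPE1 : ∀ a b y z1 z2, a ∈ S → a ≠ b → y ≠ z1 → y ≠ z2 → z1 ≠ z2 →
    Z.Adj a y → Z.Adj a z1 → Z.Adj a z2 → Z.Adj b y → Z.Adj b z1 → Z.Adj b z2 →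
    ∃ D ⊆ S, a ∉ D ∧ 2 ≤ D.ncard ∧ (Nb Z D).ncard = 4 ∧ a ∈ Nb Z D ∧
      b ∈ D ∪ Nb Z D ∧ y ∈ D ∪ Nb Z D ∧ z1 ∈ D ∪ Nb Z D ∧ z2 ∈ D ∪ Nb Z D
  L1 : ∀ w1 w2 y a b c e g, w1 ∈ S → w2 ∈ S → y ∈ S → b ∈ S → w1 ≠ w2 → y ≠ w1 → y ≠ w2 →
    a ≠ b → c ≠ e → c ≠ g → c ≠ a → c ≠ b → e ≠ g → a ≠ e → a ≠ g → b ≠ e → b ≠ g →
    Z.neighborSet w1 = {a, e, g} → Z.neighborSet w2 = {b, e, g} →
    Z.neighborSet y = {a, b, c} →
    ∃ D ⊆ S, y ∈ D ∧ w1 ∈ D ∧ w2 ∈ D ∧ b ∈ Nb Z D ∧ (Nb Z D).ncard = 4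
  FOLD : ∀ y p q c, y ∈ S → q ∈ S → p ≠ q → p ≠ c → q ≠ c → Z.neighborSet y = {p, q, c} →
    (∃ z1 z2, z1 ≠ z2 ∧ z1 ≠ y ∧ z2 ≠ y ∧ Z.Adj p z1 ∧ Z.Adj q z1 ∧ Z.Adj p z2 ∧ Z.Adj q z2) ∨
    (p ∈ T ∧ ∃ t ∈ T, Z.Adj q t) ∨
    (∃ A ⊆ S, (Nb Z A).ncard = 4 ∧ p ∈ Nb Z A ∧ q ∈ Nb Z A ∧ y ∉ A ∧ c ∉ A ∧ c ∉ Nb Z A ∧
      ∀ w ∈ A, ¬ (Z.Adj w p ∧ Z.Adj w q)) ∨
    (∃ A ⊆ S, (Nb Z A).ncard = 4 ∧ p ∈ A ∧ q ∈ A ∧ y ∉ A ∧ c ∉ A ∧ c ∉ Nb Z A ∧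
      ∀ w, w ≠ y → ¬ (Z.Adj w p ∧ Z.Adj w q))

/-- The core situation for Theorem D: `S` is dense and not one of the two irreducible
societies. -/
structure CoreD (Z : SimpleGraph V) (κ : V → ZMod 2) (S T : Set V) : Prop
    extends Core Z κ S T where
  P3 : fden Z S = beta κ T + 1
  noI7 : ¬ ∃ φ : Fin 7 → V, Function.Injective φ ∧ (∀ x y, I7.Adj x y → Z.Adj (φ x) (φ y)) ∧
    T = {φ 0, φ 1, φ 2, φ 3} ∧ Mono κ T
  noI8 : ¬ ∃ φ : Fin 8 → V, Function.Injective φ ∧ (∀ x y, I8.Adj x y → Z.Adj (φ x) (φ y)) ∧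
    T = {φ 0, φ 1, φ 2, φ 3} ∧ κ (φ 0) = κ (φ 1) ∧ κ (φ 2) = κ (φ 3) ∧ κ (φ 0) + κ (φ 2) = 1

/-- The core situation for the tight version: `S` is tight, `T` is `2+2`, no H-tree. -/
structure CoreB (Z : SimpleGraph V) (κ : V → ZMod 2) (S T : Set V) : Prop
    extends Core Z κ S T where
  P3 : fden Z S = beta κ T
  TT : Is22 κ T
  noHT : ¬ HT Z κ T

/-- L1 pair: two cubic vertices with exactly two common neighbours. -/
structure IsL1 (Z : SimpleGraph V) (E : Set V) (w1 w2 a b e g : V) : Prop where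
  eq : E = {w1, w2}
  ne : w1 ≠ w2
  n1 : Z.neighborSet w1 = {a, e, g}
  n2 : Z.neighborSet w2 = {b, e, g}
  ab : a ≠ b
  ae : a ≠ e
  ag : a ≠ g
  be : b ≠ e
  bg : b ≠ g
  eg : e ≠ g

/-- H pair: two adjacent cubic vertices. -/
structure IsH (Z : SimpleGraph V) (E : Set V) (x1 x2 p q r s : V) : Prop where
  eq : E = {x1, x2}
  n1 : Z.neighborSet x1 = {x2, p, q}
  n2 : Z.neighborSet x2 = {x1, r, s}
  pq : p ≠ q
  px : p ≠ x2
  qx : q ≠ x2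
  rs : r ≠ s
  rx : r ≠ x1
  sx : s ≠ x1

/-- The path `y1 - w - y2` of cubic vertices where `y1`, `y2` have one further common
neighbour `n3`. -/
structure IsX3 (Z : SimpleGraph V) (E : Set V) (w y1 y2 n1 n2 n3 n4 : V) : Prop where
  eq : E = {w, y1, y2}
  nw : Z.neighborSet w = {y1, y2, n4}
  ny1 : Z.neighborSet y1 = {w, n1, n3}
  ny2 : Z.neighborSet y2 = {w, n2, n3}
  yy : y1 ≠ y2
  y1n : y1 ≠ n4
  y2n : y2 ≠ n4
  wn1 : w ≠ n1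
  wn2 : w ≠ n2
  wn3 : w ≠ n3
  n12 : n1 ≠ n2
  n13 : n1 ≠ n3
  n23 : n2 ≠ n3

/-- A four-cycle `x1 y1 x2 y2` of cubic vertices with four different outside neighbours. -/
structure IsSq (Z : SimpleGraph V) (E : Set V) (x1 x2 y1 y2 p q r s : V) : Prop where
  eq : E = {x1, x2, y1, y2}
  nx1 : Z.neighborSet x1 = {y1, y2, p}
  nx2 : Z.neighborSet x2 = {y1, y2, q}
  ny1 : Z.neighborSet y1 = {x1, x2, r}
  ny2 : Z.neighborSet y2 = {x1, x2, s}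
  xx : x1 ≠ x2
  yy : y1 ≠ y2
  pq : p ≠ q
  rs : r ≠ s
  py1 : p ≠ y1
  py2 : p ≠ y2
  qy1 : q ≠ y1
  qy2 : q ≠ y2
  rx1 : r ≠ x1
  rx2 : r ≠ x2
  sx1 : s ≠ x1
  sx2 : s ≠ x2

/-- The list of small four-sets. -/
def IsLL (Z : SimpleGraph V) (E : Set V) : Prop :=
  (∃ x, E = {x}) ∨ (∃ w1 w2 a b e g, IsL1 Z E w1 w2 a b e g) ∨
    (∃ x1 x2 p q r s, IsH Z E x1 x2 p q r s) ∨
    (∃ w y1 y2 n1 n2 n3 n4, IsX3 Z E w y1 y2 n1 n2 n3 n4) ∨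
    (∃ x1 x2 y1 y2 p q r s, IsSq Z E x1 x2 y1 y2 p q r s)

/-- An inclusion-minimal four-set which is not in the list. -/
structure MinX (Z : SimpleGraph V) (S X : Set V) : Prop where
  sub : X ⊆ S
  four : (Nb Z X).ncard = 4
  notLL : ¬ IsLL Z X
  size : 4 ≤ X.ncard
  min : ∀ A, A ⊆ X → A ≠ X → A.Nonempty → (Nb Z A).ncard = 4 → IsLL Z A

/-- The union of the three parts of the boundary in an uncrossing. -/
def QQ (Z : SimpleGraph V) (A X : Set V) : Set V :=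
  (Nb Z A ∩ X) ∪ (Nb Z X ∩ A) ∪ (Nb Z A ∩ Nb Z X)

/-- Adjacent vertices have different colours. -/
lemma Core.ne_of_adj {Z : SimpleGraph V} {κ : V → ZMod 2} {S T : Set V} (h : Core Z κ S T)
    {u v : V} (hadj : Z.Adj u v) : κ u ≠ κ v := add_eq_one_iff.1 (h.prop u v hadj)

/-- Two neighbours of the same vertex have the same colour. -/
lemma Core.eq_of_adj {Z : SimpleGraph V} {κ : V → ZMod 2} {S T : Set V} (h : Core Z κ S T)
    {u v w : V} (h1 : Z.Adj u v) (h2 : Z.Adj u w) : κ v = κ w :=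
  eq_of_ne_of_ne (h.ne_of_adj h1).symm (h.ne_of_adj h2).symm

lemma Core.Nb_subset {Z : SimpleGraph V} {κ : V → ZMod 2} {S T : Set V} (h : Core Z κ S T)
    (Y : Set V) : Nb Z Y ⊆ (S ∪ T) \ Y := by
  rintro v ⟨h1, u, hu, h2⟩
  exact ⟨h.edge_mem v u h2.symm, h1⟩

/-- A neighbour of a vertex of `Y` lies in `Y` or in `Nb Z Y`. -/
lemma mem_or_Nb {Z : SimpleGraph V} {Y : Set V} {u v : V} (hu : u ∈ Y) (h : Z.Adj u v) :
    v ∈ Y ∨ v ∈ Nb Z Y := by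
  by_cases hv : v ∈ Y
  · exact Or.inl hv
  · exact Or.inr ⟨hv, u, hu, h⟩

/-- `Nb` of the intersection lies in `QQ`. -/
lemma Nb_inter_subset (Z : SimpleGraph V) (A X : Set V) : Nb Z (A ∩ X) ⊆ QQ Z A X := by
  rintro v ⟨h1, u, ⟨hA, hX⟩, h2⟩
  rcases mem_or_Nb hA h2 with hvA | hvA
  · rcases mem_or_Nb hX h2 with hvX | hvX
    · exact absurd ⟨hvA, hvX⟩ h1
    · exact Or.inl (Or.inr ⟨hvX, hvA⟩)
  · rcases mem_or_Nb hX h2 with hvX | hvX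
    · exact Or.inl (Or.inl ⟨hvA, hvX⟩)
    · exact Or.inr ⟨hvA, hvX⟩

/-- Uncrossing two four-sets: `QQ` has at most four elements. -/
theorem Core.QQ_le [Finite V] {Z : SimpleGraph V} {κ : V → ZMod 2} {S T : Set V}
    (h : Core Z κ S T) {A X : Set V} (hA : A ⊆ S) (hX : X ⊆ S) (hA4 : (Nb Z A).ncard = 4)
    (hX4 : (Nb Z X).ncard = 4) (h2 : 2 ≤ (A ∪ X).ncard) : (QQ Z A X).ncard ≤ 4 := by
  classical
  have hU := h.P1 (A ∪ X) (Set.union_subset hA hX) h2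
  set PA := Nb Z A ∩ X with hPA
  set PB := Nb Z X ∩ A with hPB
  set T1 := Nb Z A ∩ Nb Z X with hT1
  set RA := (Nb Z A \ X) \ Nb Z X with hRA
  set RX := (Nb Z X \ A) \ Nb Z A with hRX
  have e1 : Nb Z A = PA ∪ T1 ∪ RA := by
    ext v
    simp only [hPA, hT1, hRA, Set.mem_union, Set.mem_inter_iff, Set.mem_sdiff]
    tauto
  have e2 : Nb Z X = PB ∪ T1 ∪ RX := by
    ext v
    simp only [hPB, hT1, hRX, Set.mem_union, Set.mem_inter_iff, Set.mem_sdiff]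
    tauto
  have hXX : ∀ v, v ∈ X → v ∉ Nb Z X := fun v hv hv' => hv'.1 hv
  have hAA : ∀ v, v ∈ A → v ∉ Nb Z A := fun v hv hv' => hv'.1 hv
  have c1 : (Nb Z A).ncard = PA.ncard + T1.ncard + RA.ncard := by
    rw [e1, Set.ncard_union_eq _ (Set.toFinite _) (Set.toFinite _),
      Set.ncard_union_eq _ (Set.toFinite _) (Set.toFinite _)]
    · rw [Set.disjoint_left]; rintro v ⟨-, hv⟩ ⟨-, hv'⟩; exact hXX v hv hv'
    · rw [Set.disjoint_left]; rintro v (⟨-, hv⟩ | ⟨-, hv⟩) ⟨⟨-, hv'⟩, hv''⟩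
      · exact hv' hv
      · exact hv'' hv
  have c2 : (Nb Z X).ncard = PB.ncard + T1.ncard + RX.ncard := by
    rw [e2, Set.ncard_union_eq _ (Set.toFinite _) (Set.toFinite _),
      Set.ncard_union_eq _ (Set.toFinite _) (Set.toFinite _)]
    · rw [Set.disjoint_left]; rintro v ⟨-, hv⟩ ⟨hv', -⟩; exact hAA v hv hv'
    · rw [Set.disjoint_left]; rintro v (⟨-, hv⟩ | ⟨hv, -⟩) ⟨⟨-, hv'⟩, hv''⟩
      · exact hv' hv
      · exact hv'' hv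
  have c3 : (Nb Z (A ∪ X)).ncard ≤ T1.ncard + RA.ncard + RX.ncard := by
    have hsub : Nb Z (A ∪ X) ⊆ T1 ∪ RA ∪ RX := by
      rintro v ⟨h1, u, hu, h3⟩
      have hvA : v ∉ A := fun hh => h1 (Or.inl hh)
      have hvX : v ∉ X := fun hh => h1 (Or.inr hh)
      have : v ∈ Nb Z A ∨ v ∈ Nb Z X := by
        rcases hu with hu | hu
        · exact Or.inl ⟨hvA, u, hu, h3⟩
        · exact Or.inr ⟨hvX, u, hu, h3⟩
      simp only [hT1, hRA, hRX, Set.mem_union, Set.mem_inter_iff, Set.mem_sdiff]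
      tauto
    calc (Nb Z (A ∪ X)).ncard ≤ (T1 ∪ RA ∪ RX).ncard := Set.ncard_le_ncard hsub (Set.toFinite _)
      _ ≤ (T1 ∪ RA).ncard + RX.ncard := Set.ncard_union_le _ _
      _ ≤ T1.ncard + RA.ncard + RX.ncard := by
        have := Set.ncard_union_le T1 RA
        omega
  have c4 : (QQ Z A X).ncard ≤ PA.ncard + PB.ncard + T1.ncard := by
    show (PA ∪ PB ∪ T1).ncard ≤ PA.ncard + PB.ncard + T1.ncard
    have h1 := Set.ncard_union_le (PA ∪ PB) T1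
    have h3 := Set.ncard_union_le PA PB
    omega
  omega

/-- Uncrossing, the intersection has at least two elements: it is a four-set with boundary
`QQ`. -/
theorem Core.uncross [Finite V] {Z : SimpleGraph V} {κ : V → ZMod 2} {S T : Set V}
    (h : Core Z κ S T) {A X : Set V} (hA : A ⊆ S) (hX : X ⊆ S) (hA4 : (Nb Z A).ncard = 4)
    (hX4 : (Nb Z X).ncard = 4) (h2 : 2 ≤ (A ∩ X).ncard) :
    (Nb Z (A ∩ X)).ncard = 4 ∧ Nb Z (A ∩ X) = QQ Z A X := by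
  have h3 : 2 ≤ (A ∪ X).ncard :=
    h2.trans (Set.ncard_le_ncard (Set.inter_subset_left.trans Set.subset_union_left)
      (Set.toFinite _))
  have h4 := h.QQ_le hA hX hA4 hX4 h3
  have h5 := h.P1 (A ∩ X) (Set.inter_subset_left.trans hA) h2
  have h6 := Nb_inter_subset Z A X
  have h7 := Set.ncard_le_ncard h6 (Set.toFinite _)
  refine ⟨by omega, ?_⟩
  exact Set.eq_of_subset_of_ncard_le h6 (by omega) (Set.toFinite _)

end Pool.Agent.Helper57.TD
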