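import Pool.Agent.Helper57.TOK.Merge
import Pool.Agent.Helper57.TOK.SubFold
import Pool.Agent.Helper82.TK.Fan

/-!
# Theorem D (helper51): the class of societies, definitions and basic facts

A society is a graph `Z` on `S ∪ T` (`S`, `T` disjoint, `T` has four elements, every edge has an
end in `S`) with a vertex 2-colouring `κ : V → ZMod 2`. An edge `uv` is odd if `κ u + κ v = 1`
and even otherwise. `fO Z κ Y` is the number of odd edges meeting `Y` minus `2 |Y|`.
-/

set_option autoImplicit false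

namespace Pool.Agent.Helper57.TD

open SimpleGraph Pool.Agent.Helper57.TOK Pool.Agent.Helper82.TK

variable {V : Type*}

/-- The graph of the odd edges. -/
def oddG (Z : SimpleGraph V) (κ : V → ZMod 2) : SimpleGraph V where
  Adj u v := Z.Adj u v ∧ κ u + κ v = 1
  symm := ⟨fun u v h => ⟨h.1.symm, by rw [add_comm]; exact h.2⟩⟩
  loopless := ⟨fun _ h => h.1.ne rfl⟩

lemma oddG_adj {Z : SimpleGraph V} {κ : V → ZMod 2} {u v : V} :
    (oddG Z κ).Adj u v ↔ Z.Adj u v ∧ κ u + κ v = 1 := Iff.rfl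

lemma oddG_le (Z : SimpleGraph V) (κ : V → ZMod 2) : oddG Z κ ≤ Z := fun _ _ h => h.1

/-- Number of odd edges meeting `Y` minus `2 |Y|`. -/
noncomputable def fO (Z : SimpleGraph V) (κ : V → ZMod 2) (Y : Set V) : ℤ := fden (oddG Z κ) Y

/-- All vertices of `N` have the same colour. -/
def Mono (κ : V → ZMod 2) (N : Set V) : Prop := ∀ x ∈ N, ∀ y ∈ N, κ x = κ y

open Classical in
/-- The planar bound: `|N| - 2` if `N` has one colour, `|N| - 3` otherwise. -/
noncomputable def beta (κ : V → ZMod 2) (N : Set V) : ℤ :=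
  (N.ncard : ℤ) - (if Mono κ N then 2 else 3)

/-- `T` has two vertices of each colour. -/
def Is22 (κ : V → ZMod 2) (T : Set V) : Prop :=
  ∃ p q u v, T = {p, q, u, v} ∧ p ≠ q ∧ u ≠ v ∧ κ p = κ q ∧ κ u = κ v ∧ κ p ≠ κ u

/-- Threshold for `fO Z κ S`: dense (`md = false`) or tight (`md = true`). -/
noncomputable def thr (md : Bool) (κ : V → ZMod 2) (T : Set V) : ℤ :=
  match md with
  | false => beta κ T + 1
  | true => beta κ T

/-- The class of societies: dense ones for `md = false`, tight ones with `T` of type `2+2` for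
`md = true`. -/
structure Soc (md : Bool) (Z : SimpleGraph V) (κ : V → ZMod 2) (S T : Set V) : Prop where
  T4 : T.ncard = 4
  disj : Disjoint S T
  edge_mem : ∀ u v, Z.Adj u v → u ∈ S ∪ T
  edge_S : ∀ u v, Z.Adj u v → u ∈ S ∨ v ∈ S
  M1 : thr md κ T ≤ fO Z κ S
  TT : md = true → Is22 κ T
  M2 : ∀ Y ⊆ S, Y.Nonempty → (Nb Z Y).ncard ≤ 3 → fO Z κ Y ≤ beta κ (Nb Z Y)
  C1 : ∀ s ∈ S, 2 ≤ (Z.neighborSet s).ncard
  C2 : ∀ Y ⊆ S, 2 ≤ Y.ncard → 3 ≤ (Nb Z Y).ncard

/-- Frames with an arbitrary set `E` of virtual edges (edges of `E` which are not in `Z` get the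
inconsistent label). -/
def FrameX (Z : SimpleGraph V) (κ : V → ZMod 2) (E : SimpleGraph V) : Prop :=
  HasTOK4s (Z ⊔ E) (cE Z κ)

/-- The virtual path `u - p - q - v`. -/
def pathE (u p q v : V) : SimpleGraph V := SimpleGraph.fromEdgeSet {s(u, p), s(p, q), s(q, v)}

/-- H-tree: a TOK4 in `Z` with the virtual path `u - p - q - v`, where `p, q` have one colour and
`u, v` the other one. -/
def HT (Z : SimpleGraph V) (κ : V → ZMod 2) (T : Set V) : Prop :=
  ∀ u p q v, T = {u, p, q, v} → p ≠ q → u ≠ v → κ p = κ q → κ u = κ v → κ p ≠ κ u →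
    FrameX Z κ (pathE u p q v)

/-- The goal of the induction in the two modes. -/
def Goal (md : Bool) (Z : SimpleGraph V) (κ : V → ZMod 2) (T : Set V) : Prop :=
  match md with
  | false => AllFramesE Z κ T
  | true => HT Z κ T

/-- Inner measure: number of edges plus number of even edges. -/
noncomputable def meas (Z : SimpleGraph V) (κ : V → ZMod 2) : ℕ :=
  Z.edgeSet.ncard + {e | e ∈ Z.edgeSet ∧ klab κ e = 0}.ncard

/-- Order of the induction. -/
def Smaller (Z' : SimpleGraph V) (κ' : V → ZMod 2) (S' : Set V) (Z : SimpleGraph V)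
    (κ : V → ZMod 2) (S : Set V) : Prop :=
  S'.ncard < S.ncard ∨ (S'.ncard = S.ncard ∧ meas Z' κ' < meas Z κ)

/-- A minimal counterexample to Theorem D (or its tight version). -/
structure MinCE (md : Bool) (Z : SimpleGraph V) (κ : V → ZMod 2) (S T : Set V) : Prop where
  soc : Soc md Z κ S T
  bad : ¬ Goal md Z κ T
  IH : ∀ (Z' : SimpleGraph V) (κ' : V → ZMod 2) (S' T' : Set V), Soc md Z' κ' S' T' →
    Smaller Z' κ' S' Z κ S → Goal md Z' κ' T'
  HD : ∀ (Z' : SimpleGraph V) (κ' : V → ZMod 2) (S' T' : Set V), Soc false Z' κ' S' T' →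
    (md = true ∨ Smaller Z' κ' S' Z κ S) → AllFramesE Z' κ' T'

lemma pathE_adj {u p q v x y : V} : (pathE u p q v).Adj x y ↔
    x ≠ y ∧ (s(x, y) = s(u, p) ∨ s(x, y) = s(p, q) ∨ s(x, y) = s(q, v)) := by
  unfold pathE
  rw [SimpleGraph.fromEdgeSet_adj]
  simp only [Set.mem_insert_iff, Set.mem_singleton_iff]
  tauto

/-- Frames give H-trees. -/
theorem HT.of_all {Z : SimpleGraph V} {κ : V → ZMod 2} {T : Set V} (hF : AllFramesE Z κ T) :
    HT Z κ T := by
  intro u p q v hT hpq huv h1 h2 h3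
  have hup : u ≠ p := fun h => h3 (h ▸ rfl)
  have huq : u ≠ q := fun h => h3 (h1.trans (h ▸ rfl))
  have hpv : p ≠ v := fun h => h3 ((congrArg κ h).trans h2.symm)
  have hqv : q ≠ v := fun h => h3 (h1.trans ((congrArg κ h).trans h2.symm))
  have h := hF u (by rw [hT]; simp) p (by rw [hT]; simp) q (by rw [hT]; simp) v
    (by rw [hT]; simp) hup huq huv hpq hpv hqv
  unfold FrameE at h
  unfold FrameX
  refine HasTOK4s.mono ?_ (fun _ _ => rfl) h
  rintro x y ⟨hne, h4⟩
  rw [SimpleGraph.sup_adj, pathE_adj]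
  rcases h4 with h4 | h4 | h4
  · exact Or.inl h4
  · exact Or.inr ⟨hne, Or.inl h4⟩
  · exact Or.inr ⟨hne, Or.inr (Or.inr h4)⟩

/-- Frames give the goal in both modes. -/
theorem Goal.of_all {md : Bool} {Z : SimpleGraph V} {κ : V → ZMod 2} {T : Set V}
    (hF : AllFramesE Z κ T) : Goal md Z κ T := by
  cases md
  · exact hF
  · exact HT.of_all hF

lemma MinCE.notAll {md : Bool} {Z : SimpleGraph V} {κ : V → ZMod 2} {S T : Set V}
    (h : MinCE md Z κ S T) : ¬ AllFramesE Z κ T := fun hF => h.bad (Goal.of_all hF)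

lemma thr_le (md : Bool) (κ : V → ZMod 2) (T : Set V) : thr md κ T ≤ beta κ T + 1 := by
  cases md
  · exact le_refl _
  · show beta κ T ≤ beta κ T + 1
    linarith

lemma le_thr (md : Bool) (κ : V → ZMod 2) (T : Set V) : beta κ T ≤ thr md κ T := by
  cases md
  · show beta κ T ≤ beta κ T + 1
    linarith
  · exact le_refl _

/-- A dense society is a society in both modes (if `T` is `2+2` in the second one). -/
lemma Soc.of_dense {md : Bool} {Z : SimpleGraph V} {κ : V → ZMod 2} {S T : Set V}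
    (h : Soc false Z κ S T) (hT : md = true → Is22 κ T) : Soc md Z κ S T where
  T4 := h.T4
  disj := h.disj
  edge_mem := h.edge_mem
  edge_S := h.edge_S
  M1 := (thr_le md κ T).trans h.M1
  TT := hT
  M2 := h.M2
  C1 := h.C1
  C2 := h.C2

/-! ### Facts on colours -/

lemma zmod2_cases (a : ZMod 2) : a = 0 ∨ a = 1 := by
  fin_cases a
  · exact Or.inl rfl
  · exact Or.inr rfl

lemma add_eq_one_iff {a b : ZMod 2} : a + b = 1 ↔ a ≠ b := by
  revert a b; decide

lemma add_eq_zero_iff' {a b : ZMod 2} : a + b = 0 ↔ a = b := by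
  revert a b; decide

lemma eq_of_ne_of_ne {a b c : ZMod 2} (h1 : a ≠ c) (h2 : b ≠ c) : a = b := by
  revert a b c; decide

/-! ### Facts on `beta` -/

lemma beta_of_mono {κ : V → ZMod 2} {N : Set V} (h : Mono κ N) :
    beta κ N = (N.ncard : ℤ) - 2 := by
  unfold beta; rw [if_pos h]

lemma beta_of_not_mono {κ : V → ZMod 2} {N : Set V} (h : ¬ Mono κ N) :
    beta κ N = (N.ncard : ℤ) - 3 := by
  unfold beta; rw [if_neg h]

lemma beta_le (κ : V → ZMod 2) (N : Set V) : beta κ N ≤ (N.ncard : ℤ) - 2 := by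
  unfold beta; split_ifs <;> linarith

lemma le_beta (κ : V → ZMod 2) (N : Set V) : (N.ncard : ℤ) - 3 ≤ beta κ N := by
  unfold beta; split_ifs <;> linarith

lemma Mono.subset {κ : V → ZMod 2} {N N' : Set V} (h : Mono κ N') (hs : N ⊆ N') : Mono κ N :=
  fun x hx y hy => h x (hs hx) y (hs hy)

/-- `beta` is monotone. -/
lemma beta_mono [Finite V] {κ : V → ZMod 2} {N N' : Set V} (hs : N ⊆ N') :
    beta κ N ≤ beta κ N' := by
  by_cases h' : Mono κ N'
  · rw [beta_of_mono h', beta_of_mono (h'.subset hs)]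
    have := Set.ncard_le_ncard hs (Set.toFinite _)
    have : (N.ncard : ℤ) ≤ (N'.ncard : ℤ) := by exact_mod_cast this
    linarith
  · by_cases h : Mono κ N
    · rw [beta_of_not_mono h', beta_of_mono h]
      have hne : N ≠ N' := fun hh => h' (hh ▸ h)
      have := Set.ncard_lt_ncard (lt_of_le_of_ne hs hne) (Set.toFinite _)
      have : (N.ncard : ℤ) < (N'.ncard : ℤ) := by exact_mod_cast this
      linarith
    · rw [beta_of_not_mono h', beta_of_not_mono h]
      have := Set.ncard_le_ncard hs (Set.toFinite _)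
      have : (N.ncard : ℤ) ≤ (N'.ncard : ℤ) := by exact_mod_cast this
      linarith

/-- One more element raises `beta` by at most one. -/
lemma beta_insert_le [Finite V] {κ : V → ZMod 2} {N : Set V} {x : V} :
    beta κ (insert x N) ≤ beta κ N + 1 := by
  have hc : (insert x N).ncard ≤ N.ncard + 1 := Set.ncard_insert_le x N
  have hc' : ((insert x N).ncard : ℤ) ≤ (N.ncard : ℤ) + 1 := by exact_mod_cast hc
  by_cases h : Mono κ (insert x N)
  · rw [beta_of_mono h, beta_of_mono (h.subset (Set.subset_insert x N))]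
    linarith
  · rw [beta_of_not_mono h]
    have := le_beta κ N
    linarith

/-- `beta` depends only on the colours on `N`. -/
lemma beta_congr {κ κ' : V → ZMod 2} {N : Set V} (h : ∀ x ∈ N, κ x = κ' x) :
    beta κ N = beta κ' N := by
  have : Mono κ N ↔ Mono κ' N := by
    constructor
    · intro h1 x hx y hy
      rw [← h x hx, ← h y hy]; exact h1 x hx y hy
    · intro h1 x hx y hy
      rw [h x hx, h y hy]; exact h1 x hx y hy
  unfold beta
  by_cases h1 : Mono κ N
  · rw [if_pos h1, if_pos (this.1 h1)]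
  · rw [if_neg h1, if_neg (fun h2 => h1 (this.2 h2))]

/-- `beta` of a set in which only the colour of one element `x` may change: replacing a vertex. -/
lemma beta_insert_le' [Finite V] {κ : V → ZMod 2} {N : Set V} {x : V} (hx : x ∉ N) :
    beta κ (insert x N) ≤ beta κ N + 1 ∧ beta κ N ≤ beta κ (insert x N) :=
  ⟨beta_insert_le, beta_mono (Set.subset_insert x N)⟩

/-! ### Facts on `fO` and `Nb` -/

lemma fO_insert [Finite V] {Z : SimpleGraph V} {κ : V → ZMod 2} {y : V} {Y : Set V} (hy : y ∉ Y) :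
    fO Z κ (insert y Y) =
      fO Z κ Y + ({w | Z.Adj y w ∧ κ y + κ w = 1 ∧ w ∉ Y}.ncard : ℤ) - 2 := by
  unfold fO
  rw [fden_insert _ hy]
  have : (oddG Z κ).neighborSet y \ Y = {w | Z.Adj y w ∧ κ y + κ w = 1 ∧ w ∉ Y} := by
    ext w
    simp only [Set.mem_sdiff, SimpleGraph.mem_neighborSet, oddG_adj, Set.mem_ofPred_eq]
    tauto
  rw [this]

lemma fO_singleton [Finite V] (Z : SimpleGraph V) (κ : V → ZMod 2) (y : V) :
    fO Z κ {y} = ({w | Z.Adj y w ∧ κ y + κ w = 1}.ncard : ℤ) - 2 := by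
  have h := fO_insert (Z := Z) (κ := κ) (Set.notMem_empty y)
  rw [LawfulSingleton.insert_empty_eq] at h
  rw [h]
  unfold fO
  rw [fden_empty]
  have : {w | Z.Adj y w ∧ κ y + κ w = 1 ∧ w ∉ (∅ : Set V)} = {w | Z.Adj y w ∧ κ y + κ w = 1} := by
    ext w; simp
  rw [this]; ring

/-- `fO` in terms of the graph only sees the edges meeting `Y`. -/
lemma fO_congr {Z Z' : SimpleGraph V} {κ κ' : V → ZMod 2} {Y : Set V}
    (h : ∀ u v, u ∈ Y → (Z.Adj u v ∧ κ u + κ v = 1 ↔ Z'.Adj u v ∧ κ' u + κ' v = 1)) :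
    fO Z κ Y = fO Z' κ' Y := by
  unfold fO fden rho
  have : EAt (oddG Z κ) Y = EAt (oddG Z' κ') Y := by
    ext e
    induction e using Sym2.ind with
    | _ u v =>
      rw [mem_EAt, mem_EAt, oddG_adj, oddG_adj]
      constructor
      · rintro ⟨h1, h2 | h2⟩
        · exact ⟨(h u v h2).1 h1, Or.inl h2⟩
        · have := (h v u h2).1 ⟨h1.1.symm, by rw [add_comm]; exact h1.2⟩
          exact ⟨⟨this.1.symm, by rw [add_comm]; exact this.2⟩, Or.inr h2⟩
      · rintro ⟨h1, h2 | h2⟩
        · exact ⟨(h u v h2).2 h1, Or.inl h2⟩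
        · have := (h v u h2).2 ⟨h1.1.symm, by rw [add_comm]; exact h1.2⟩
          exact ⟨⟨this.1.symm, by rw [add_comm]; exact this.2⟩, Or.inr h2⟩
  rw [this]

lemma Nb_congr {Z Z' : SimpleGraph V} {Y : Set V} (h : ∀ u v, u ∈ Y → v ∉ Y → (Z.Adj u v ↔ Z'.Adj u v)) :
    Nb Z Y = Nb Z' Y := by
  ext v
  rw [mem_Nb, mem_Nb]
  constructor
  · rintro ⟨h1, u, hu, h2⟩; exact ⟨h1, u, hu, (h u v hu h1).1 h2⟩
  · rintro ⟨h1, u, hu, h2⟩; exact ⟨h1, u, hu, (h u v hu h1).2 h2⟩

lemma Nb_singleton (Z : SimpleGraph V) (y : V) : Nb Z {y} = Z.neighborSet y := by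
  ext v
  rw [mem_Nb, SimpleGraph.mem_neighborSet]
  constructor
  · rintro ⟨-, u, hu, h⟩
    rw [Set.mem_singleton_iff] at hu
    rwa [hu] at h
  · intro h
    exact ⟨fun hv => h.ne (Set.mem_singleton_iff.1 hv).symm, y, rfl, h⟩

/-- A single vertex is never dense. -/
lemma fO_singleton_le [Finite V] (Z : SimpleGraph V) (κ : V → ZMod 2) (y : V)
    (hne : (Z.neighborSet y).Nonempty) : fO Z κ {y} ≤ beta κ (Nb Z {y}) := by
  rw [fO_singleton, Nb_singleton]
  have hsub : {w | Z.Adj y w ∧ κ y + κ w = 1} ⊆ Z.neighborSet y := fun w h => h.1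
  by_cases h : Mono κ (Z.neighborSet y)
  · rw [beta_of_mono h]
    have := Set.ncard_le_ncard hsub (Set.toFinite _)
    have : ({w | Z.Adj y w ∧ κ y + κ w = 1}.ncard : ℤ) ≤ ((Z.neighborSet y).ncard : ℤ) := by
      exact_mod_cast this
    linarith
  · rw [beta_of_not_mono h]
    have hne' : {w | Z.Adj y w ∧ κ y + κ w = 1} ≠ Z.neighborSet y := by
      intro heq
      apply h
      intro x hx x' hx'
      rw [← heq] at hx hx'
      have h1 : κ y ≠ κ x := add_eq_one_iff.1 hx.2
      have h2 : κ y ≠ κ x' := add_eq_one_iff.1 hx'.2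
      exact eq_of_ne_of_ne h1.symm h2.symm
    have := Set.ncard_lt_ncard (lt_of_le_of_ne hsub hne') (Set.toFinite _)
    have : ({w | Z.Adj y w ∧ κ y + κ w = 1}.ncard : ℤ) < ((Z.neighborSet y).ncard : ℤ) := by
      exact_mod_cast this
    linarith

/-- Neighbourhoods of subsets of `S` stay in `S ∪ T`. -/
lemma Soc.Nb_subset {md : Bool} {Z : SimpleGraph V} {κ : V → ZMod 2} {S T : Set V}
    (h : Soc md Z κ S T)
    (Y : Set V) : Nb Z Y ⊆ (S ∪ T) \ Y := by
  rintro v ⟨h1, u, hu, h2⟩
  exact ⟨h.edge_mem v u h2.symm, h1⟩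

lemma Soc.Nb_S_subset {md : Bool} {Z : SimpleGraph V} {κ : V → ZMod 2} {S T : Set V}
    (h : Soc md Z κ S T) :
    Nb Z S ⊆ T := by
  intro v hv
  obtain ⟨h1, h2⟩ := h.Nb_subset S hv
  rcases h1 with h1 | h1
  · exact absurd h1 h2
  · exact h1

lemma ncard_pair_le' (x y : V) : ({x, y} : Set V).ncard ≤ 2 := by
  have := Set.ncard_insert_le x ({y} : Set V)
  rw [Set.ncard_singleton] at this
  exact this

/-- Proper subsets of a `2+2` set have smaller `beta`. -/
lemma Is22.beta_lt [Finite V] {κ : V → ZMod 2} {N T : Set V} (h : Is22 κ T) (hT : T.ncard = 4)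
    (hs : N ⊆ T) (hne : N ≠ T) : beta κ N < beta κ T := by
  obtain ⟨p, q, u, v, rfl, hpq, huv, h1, h2, h3⟩ := h
  have hlt := Set.ncard_lt_ncard (lt_of_le_of_ne hs hne) (Set.toFinite _)
  have hnm : ¬ Mono κ ({p, q, u, v} : Set V) := fun h => h3 (h p (by simp) u (by simp))
  rw [beta_of_not_mono hnm]
  by_cases hm : Mono κ N
  · rw [beta_of_mono hm]
    have hsub : N ⊆ {p, q} ∨ N ⊆ {u, v} := by
      by_cases hN : p ∈ N ∨ q ∈ N
      · left
        intro x hx
        rcases hs hx with rfl | rfl | rfl | rfl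
        · simp
        · simp
        · exfalso
          rcases hN with h4 | h4
          · exact h3 (hm _ h4 _ hx)
          · exact h3 (h1.trans (hm _ h4 _ hx))
        · exfalso
          rcases hN with h4 | h4
          · exact h3 ((hm _ h4 _ hx).trans h2.symm)
          · exact h3 ((h1.trans (hm _ h4 _ hx)).trans h2.symm)
      · right
        push Not at hN
        intro x hx
        rcases hs hx with rfl | rfl | rfl | rfl
        · exact absurd hx hN.1
        · exact absurd hx hN.2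
        · simp
        · simp
    have hle : N.ncard ≤ 2 := by
      rcases hsub with h4 | h4
      · exact (Set.ncard_le_ncard h4 (Set.toFinite _)).trans (ncard_pair_le' _ _)
      · exact (Set.ncard_le_ncard h4 (Set.toFinite _)).trans (ncard_pair_le' _ _)
    have hle' : (N.ncard : ℤ) ≤ 2 := by exact_mod_cast hle
    rw [hT]
    push_cast
    linarith
  · rw [beta_of_not_mono hm]
    have : (N.ncard : ℤ) < (({p, q, u, v} : Set V).ncard : ℤ) := by exact_mod_cast hlt
    linarith

lemma Soc.beta_lt_thr [Finite V] {md : Bool} {Z : SimpleGraph V} {κ : V → ZMod 2} {S T : Set V}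
    (h : Soc md Z κ S T) {N : Set V} (hs : N ⊆ T) (hne : N ≠ T) : beta κ N < thr md κ T := by
  cases md
  · have := beta_mono (κ := κ) hs
    show beta κ N < beta κ T + 1
    linarith
  · exact (h.TT rfl).beta_lt h.T4 hs hne

/-- All four terminals are used. -/
lemma Soc.Nb_S [Finite V] {md : Bool} {Z : SimpleGraph V} {κ : V → ZMod 2} {S T : Set V}
    (h : Soc md Z κ S T) (hS : S.Nonempty) : Nb Z S = T := by
  have hsub := h.Nb_S_subset
  by_contra hne
  have hlt := Set.ncard_lt_ncard (lt_of_le_of_ne hsub hne) (Set.toFinite _)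
  rw [h.T4] at hlt
  have h1 := h.M2 S subset_rfl hS (by omega)
  have h2 := h.beta_lt_thr hsub hne
  have h3 := h.M1
  linarith

lemma Soc.S_nonempty [Finite V] {md : Bool} {Z : SimpleGraph V} {κ : V → ZMod 2} {S T : Set V}
    (h : Soc md Z κ S T) : S.Nonempty := by
  rw [Set.nonempty_iff_ne_empty]
  intro hS
  have h1 := h.M1
  rw [hS] at h1
  unfold fO at h1
  rw [fden_empty] at h1
  have h2 := le_beta κ T
  have h3 := le_thr md κ T
  rw [h.T4] at h2
  norm_num at h2
  linarith

/-- `S` has at least two vertices. -/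
lemma Soc.two_le [Finite V] {md : Bool} {Z : SimpleGraph V} {κ : V → ZMod 2} {S T : Set V}
    (h : Soc md Z κ S T) : 2 ≤ S.ncard := by
  by_contra hlt
  push Not at hlt
  have hpos : 0 < S.ncard := (Set.ncard_pos (Set.toFinite _)).2 h.S_nonempty
  have h1 : S.ncard = 1 := by omega
  obtain ⟨s, rfl⟩ := Set.ncard_eq_one.1 h1
  have hNS := h.Nb_S ⟨s, rfl⟩
  have h4 := h.M1
  cases md
  · have h2 : (Z.neighborSet s).Nonempty := by
      rw [← Set.ncard_pos (Set.toFinite _)]
      have := h.C1 s rfl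
      omega
    have h3 := fO_singleton_le Z κ s h2
    rw [hNS] at h3
    have h5 : thr false κ T = beta κ T + 1 := rfl
    linarith
  · obtain ⟨p, q, u, v, hT, hpq, huv, h1, h2, h3⟩ := h.TT rfl
    rw [Nb_singleton] at hNS
    rw [fO_singleton] at h4
    have h5 : thr true κ T = beta κ T := rfl
    have hnm : ¬ Mono κ T := fun hm => h3 (hm p (by rw [hT]; simp) u (by rw [hT]; simp))
    rw [h5, beta_of_not_mono hnm, h.T4] at h4
    -- only the opposite colour is counted
    have hcnt : ({w | Z.Adj s w ∧ κ s + κ w = 1}).ncard ≤ 2 := by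
      by_cases hs : κ s = κ p
      · refine (Set.ncard_le_ncard (t := {u, v}) ?_ (Set.toFinite _)).trans
          (ncard_pair_le' _ _)
        rintro w ⟨hw, hw'⟩
        have hwT : w ∈ T := by rw [← hNS]; exact hw
        rw [hT] at hwT
        have hw'' := add_eq_one_iff.1 hw'
        rcases hwT with rfl | rfl | rfl | rfl
        · exact absurd hs hw''
        · exact absurd (hs.trans h1) hw''
        · simp
        · simp
      · have hs' : κ s = κ u := eq_of_ne_of_ne hs (Ne.symm h3)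
        refine (Set.ncard_le_ncard (t := {p, q}) ?_ (Set.toFinite _)).trans
          (ncard_pair_le' _ _)
        rintro w ⟨hw, hw'⟩
        have hwT : w ∈ T := by rw [← hNS]; exact hw
        rw [hT] at hwT
        have hw'' := add_eq_one_iff.1 hw'
        rcases hwT with rfl | rfl | rfl | rfl
        · simp
        · simp
        · exact absurd hs' hw''
        · exact absurd (hs'.trans h2) hw''
    have : (({w | Z.Adj s w ∧ κ s + κ w = 1}).ncard : ℤ) ≤ 2 := by exact_mod_cast hcnt
    push_cast at h4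
    linarith

end Pool.Agent.Helper57.TD
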