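import Pool.Agent.Helper57.TD.Flip
import Pool.Agent.Helper73.TD.Goal

/-!
# P2 and P3: proper four-sets are not dense; the density of `S` is exactly the threshold
-/

set_option autoImplicit false

namespace Pool.Agent.Helper57.TD

open SimpleGraph Pool.Agent.Helper57.TOK Pool.Agent.Helper82.TK

variable {V : Type*}

/-- P2. -/
theorem MinCE.P2 [Finite V] {md : Bool} {Z : SimpleGraph V} {κ : V → ZMod 2} {S T : Set V}
    (hM : MinCE md Z κ S T)
    (hP1 : ∀ Y ⊆ S, 2 ≤ Y.ncard → 4 ≤ (Nb Z Y).ncard) :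
    ∀ Y ⊆ S, Y ≠ S → (Nb Z Y).ncard = 4 → fO Z κ Y ≤ beta κ (Nb Z Y) := by
  intro Y hY hne h4
  by_contra hlt
  push Not at hlt
  have hYne : Y.Nonempty := by
    rw [Set.nonempty_iff_ne_empty]
    intro h
    rw [h, Nb_empty, Set.ncard_empty] at h4
    omega
  refine hM.no_sub (κ' := κ) hY hne h4 ?_ hlt ?_ (Or.inl rfl)
  · intro X hYX hX
    by_cases h2 : 2 ≤ X.ncard
    · exact hP1 X hX h2
    · have h5 : 0 < Y.ncard := (Set.ncard_pos (Set.toFinite _)).2 hYne
      have h6 : Y = X := Set.eq_of_subset_of_ncard_le hYX (by omega) (Set.toFinite _)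
      rw [← h6, h4]
  · intro Y' hY' hne' h3
    have hpos : 0 < Y'.ncard := (Set.ncard_pos (Set.toFinite _)).2 hne'
    have h2 : Y'.ncard = 1 := by
      by_contra h2
      have := hP1 Y' (hY'.trans hY) (by omega)
      omega
    obtain ⟨s, rfl⟩ := Set.ncard_eq_one.1 h2
    apply fO_singleton_le
    have h7 := hM.soc.C1 s (hY (hY' rfl))
    exact (Set.ncard_pos (Set.toFinite _)).1 (by omega)

/-! ### Deleting an edge -/

lemma del_adj {Z : SimpleGraph V} {x y u v : V} :
    (Z.deleteEdges {s(x, y)}).Adj u v ↔ Z.Adj u v ∧ s(u, v) ≠ s(x, y) := by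
  rw [SimpleGraph.deleteEdges_adj, Set.mem_singleton_iff]

lemma del_le (Z : SimpleGraph V) (x y : V) : Z.deleteEdges {s(x, y)} ≤ Z :=
  SimpleGraph.deleteEdges_le _

lemma oddG_del {Z : SimpleGraph V} {κ : V → ZMod 2} (x y : V) :
    oddG (Z.deleteEdges {s(x, y)}) κ = (oddG Z κ).deleteEdges {s(x, y)} := by
  ext u v
  rw [oddG_adj, del_adj, del_adj, oddG_adj]
  tauto

lemma fO_del_of_odd [Finite V] {Z : SimpleGraph V} {κ : V → ZMod 2} {x y : V}
    (hadj : Z.Adj x y) (hodd : κ x + κ y = 1) {Y : Set V} (h : x ∈ Y ∨ y ∈ Y) :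
    fO (Z.deleteEdges {s(x, y)}) κ Y + 1 = fO Z κ Y := by
  unfold fO fden
  rw [oddG_del]
  have h1 : s(x, y) ∈ EAt (oddG Z κ) Y := mem_EAt.2 ⟨⟨hadj, hodd⟩, h⟩
  have h2 := rho_deleteEdge_of_mem (oddG Z κ) h1
  zify at h2
  linarith

lemma fO_del_of_notMem [Finite V] {Z : SimpleGraph V} {κ : V → ZMod 2} {x y : V}
    {Y : Set V} (h : x ∉ Y ∧ y ∉ Y) :
    fO (Z.deleteEdges {s(x, y)}) κ Y = fO Z κ Y := by
  unfold fO fden
  rw [oddG_del]
  have h1 : s(x, y) ∉ EAt (oddG Z κ) Y := by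
    intro h1
    rcases (mem_EAt.1 h1).2 with h2 | h2
    · exact h.1 h2
    · exact h.2 h2
  rw [rho_deleteEdge_of_notMem (oddG Z κ) h1]

lemma Nb_del_same {Z : SimpleGraph V} {x y : V} {Y : Set V} (h : x ∈ Y ↔ y ∈ Y) :
    Nb (Z.deleteEdges {s(x, y)}) Y = Nb Z Y := by
  apply Nb_congr
  intro u v hu hv
  rw [del_adj]
  refine ⟨fun h1 => h1.1, fun h1 => ⟨h1, ?_⟩⟩
  intro he
  rw [Sym2.eq_iff] at he
  rcases he with ⟨rfl, rfl⟩ | ⟨rfl, rfl⟩
  · exact hv (h.1 hu)
  · exact hv (h.2 hu)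

lemma Nb_del_cross {Z : SimpleGraph V} {x y : V} {Y : Set V} (hx : x ∈ Y) :
    Nb Z Y ⊆ insert y (Nb (Z.deleteEdges {s(x, y)}) Y) := by
  rintro v ⟨h1, u, hu, h2⟩
  by_cases hv : v = y
  · exact Or.inl hv
  · refine Or.inr ⟨h1, u, hu, ?_⟩
    rw [del_adj]
    refine ⟨h2, ?_⟩
    intro he
    rw [Sym2.eq_iff] at he
    rcases he with ⟨-, h3⟩ | ⟨-, h3⟩
    · exact hv h3
    · exact h1 (h3 ▸ hx)

lemma Nb_del_cross' {Z : SimpleGraph V} {x y : V} {Y : Set V} (hy : y ∈ Y) :
    Nb Z Y ⊆ insert x (Nb (Z.deleteEdges {s(x, y)}) Y) := by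
  have h := Nb_del_cross (Z := Z) (x := y) (y := x) hy
  rwa [Sym2.eq_swap (a := y)] at h

lemma meas_del_lt [Finite V] {Z : SimpleGraph V} {κ : V → ZMod 2} {x y : V} (h : Z.Adj x y) :
    meas (Z.deleteEdges {s(x, y)}) κ < meas Z κ := by
  unfold meas
  have h1 : (Z.deleteEdges {s(x, y)}).edgeSet.ncard < Z.edgeSet.ncard := by
    apply Set.ncard_lt_ncard _ (Set.toFinite _)
    rw [SimpleGraph.edgeSet_deleteEdges]
    refine ⟨Set.sdiff_subset, fun hh => ?_⟩
    have h2 : s(x, y) ∈ Z.edgeSet := h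
    exact (hh h2).2 rfl
  have h2 : {e | e ∈ (Z.deleteEdges {s(x, y)}).edgeSet ∧ klab κ e = 0}.ncard ≤
      {e | e ∈ Z.edgeSet ∧ klab κ e = 0}.ncard := by
    apply Set.ncard_le_ncard _ (Set.toFinite _)
    rintro e ⟨h3, h4⟩
    exact ⟨SimpleGraph.edgeSet_mono (del_le Z x y) h3, h4⟩
  omega

lemma neighborSet_del_ncard [Finite V] {Z : SimpleGraph V} {x y s : V} :
    (Z.neighborSet s).ncard ≤ ((Z.deleteEdges {s(x, y)}).neighborSet s).ncard + 1 := by
  by_cases hs : s = x
  · subst hs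
    have h : Z.neighborSet s ⊆ insert y ((Z.deleteEdges {s(s, y)}).neighborSet s) := by
      intro v hv
      by_cases hvy : v = y
      · exact Or.inl hvy
      · right
        rw [SimpleGraph.mem_neighborSet, del_adj]
        refine ⟨hv, ?_⟩
        intro he
        rw [Sym2.eq_iff] at he
        rcases he with ⟨-, h3⟩ | ⟨h3, h4⟩
        · exact hvy h3
        · exact hvy (h4.trans h3)
    exact (Set.ncard_le_ncard h (Set.toFinite _)).trans (Set.ncard_insert_le _ _)
  · have h : Z.neighborSet s ⊆ insert x ((Z.deleteEdges {s(x, y)}).neighborSet s) := by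
      intro v hv
      by_cases hvx : v = x
      · exact Or.inl hvx
      · right
        rw [SimpleGraph.mem_neighborSet, del_adj]
        refine ⟨hv, ?_⟩
        intro he
        rw [Sym2.eq_iff] at he
        rcases he with ⟨h3, -⟩ | ⟨-, h4⟩
        · exact hs h3
        · exact hvx h4
    exact (Set.ncard_le_ncard h (Set.toFinite _)).trans (Set.ncard_insert_le _ _)

/-- P3. -/
theorem MinCE.P3 [Finite V] {md : Bool} {Z : SimpleGraph V} {κ : V → ZMod 2} {S T : Set V}
    (hM : MinCE md Z κ S T) (hprop : Proper Z κ)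
    (hdeg : ∀ s ∈ S, 3 ≤ (Z.neighborSet s).ncard)
    (hP1 : ∀ Y ⊆ S, 2 ≤ Y.ncard → 4 ≤ (Nb Z Y).ncard) : fO Z κ S = thr md κ T := by
  classical
  have hS := hM.soc
  have hP2 := hM.P2 hP1
  by_contra hne
  have hgt : thr md κ T + 1 ≤ fO Z κ S := by
    have h1 := hS.M1
    rcases lt_or_eq_of_le h1 with h2 | h2
    · linarith
    · exact absurd h2.symm hne
  have hNS := hS.Nb_S hS.S_nonempty
  -- choice of the edge
  obtain ⟨x, y, hx, hadj, hxy⟩ : ∃ x y, x ∈ S ∧ Z.Adj x y ∧
      (y ∈ T → ∃ x', x' ≠ x ∧ Z.Adj x' y) := by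
    by_contra hcon
    push Not at hcon
    have hall : ∀ x ∈ S, ∀ y, Z.Adj x y → y ∈ T ∧ ∀ x', x' ≠ x → ¬ Z.Adj x' y := by
      intro x hx y hadj
      exact hcon x y hx hadj
    have h2 := hS.two_le
    obtain ⟨s, hs, s', hs', hss⟩ := (Set.one_lt_ncard (Set.toFinite _)).1 (by omega : 1 < S.ncard)
    have hd : Disjoint (Z.neighborSet s) (Z.neighborSet s') := by
      rw [Set.disjoint_left]
      intro v hv hv'
      exact (hall s hs v hv).2 s' hss.symm hv'
    have hsub : Z.neighborSet s ∪ Z.neighborSet s' ⊆ T := by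
      rintro v (hv | hv)
      · exact (hall s hs v hv).1
      · exact (hall s' hs' v hv).1
    have h5 := Set.ncard_le_ncard hsub (Set.toFinite _)
    rw [Set.ncard_union_eq hd (Set.toFinite _) (Set.toFinite _), hS.T4] at h5
    have h6 := hdeg s hs
    have h7 := hdeg s' hs'
    omega
  have hodd := hprop x y hadj
  set Z' := Z.deleteEdges {s(x, y)} with hZ'
  have hle : Z' ≤ Z := del_le Z x y
  -- crossing sets
  have hcross : ∀ Y ⊆ S, 2 ≤ Y.ncard → 3 ≤ (Nb Z' Y).ncard ∧
      ((Nb Z' Y).ncard ≤ 3 → (x ∈ Y ∨ y ∈ Y) ∧ Y ≠ S ∧ (Nb Z Y).ncard = 4 ∧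
        ∃ z, Nb Z Y ⊆ insert z (Nb Z' Y)) := by
    intro Y hY h2
    have h4 := hP1 Y hY h2
    by_cases hx' : x ∈ Y
    · by_cases hy' : y ∈ Y
      · have h5 : Nb Z' Y = Nb Z Y := Nb_del_same (by tauto)
        rw [h5]
        exact ⟨by omega, fun h => absurd h (by omega)⟩
      · have h5 : Nb Z Y ⊆ insert y (Nb Z' Y) := Nb_del_cross hx'
        have h6 := (Set.ncard_le_ncard h5 (Set.toFinite _)).trans (Set.ncard_insert_le _ _)
        refine ⟨by omega, fun h => ⟨Or.inl hx', ?_, by omega, y, h5⟩⟩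
        rintro rfl
        -- Y = S, y ∈ T
        have hyT : y ∈ T := by
          rcases hS.edge_mem y x hadj.symm with h7 | h7
          · exact absurd h7 hy'
          · exact h7
        obtain ⟨x', hx'ne, hx'y⟩ := hxy hyT
        have hyN : y ∈ Nb Z' Y := by
          refine ⟨hy', x', ?_, ?_⟩
          · rcases hS.edge_S x' y hx'y with h7 | h7
            · exact h7
            · exact absurd h7 hy'
          · rw [hZ', del_adj]
            refine ⟨hx'y, ?_⟩
            intro he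
            rw [Sym2.eq_iff] at he
            rcases he with ⟨h8, -⟩ | ⟨h8, h9⟩
            · exact hx'ne h8
            · exact hadj.ne h9.symm
        rw [Set.insert_eq_of_mem hyN] at h5
        have h7 := Set.ncard_le_ncard h5 (Set.toFinite _)
        omega
    · by_cases hy' : y ∈ Y
      · have h5 : Nb Z Y ⊆ insert x (Nb Z' Y) := Nb_del_cross' hy'
        have h6 := (Set.ncard_le_ncard h5 (Set.toFinite _)).trans (Set.ncard_insert_le _ _)
        exact ⟨by omega, fun h => ⟨Or.inr hy', fun hh => hx' (hh ▸ hx), by omega, x, h5⟩⟩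
      · have h5 : Nb Z' Y = Nb Z Y := Nb_del_same (by tauto)
        rw [h5]
        exact ⟨by omega, fun h => absurd h (by omega)⟩
  have hC1 : ∀ s ∈ S, 2 ≤ (Z'.neighborSet s).ncard := by
    intro s hs
    have h1 := hdeg s hs
    have h2 := neighborSet_del_ncard (Z := Z) (x := x) (y := y) (s := s)
    rw [← hZ'] at h2
    omega
  have hsoc : Soc md Z' κ S T :=
    { T4 := hS.T4
      disj := hS.disj
      edge_mem := fun u v h => hS.edge_mem u v (hle h)
      edge_S := fun u v h => hS.edge_S u v (hle h)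
      M1 := by
        have h1 := fO_del_of_odd (Y := S) hadj hodd (Or.inl hx)
        rw [← hZ'] at h1
        linarith
      TT := hS.TT
      M2 := by
        intro Y hY hYne h3
        by_cases h2 : 2 ≤ Y.ncard
        · obtain ⟨-, h4⟩ := hcross Y hY h2
          obtain ⟨h5, h6, h7, z, h8⟩ := h4 h3
          have h9 := hP2 Y hY h6 h7
          have h10 := fO_del_of_odd hadj hodd h5
          rw [← hZ'] at h10
          have h11 := (beta_mono (κ := κ) h8).trans beta_insert_le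
          linarith
        · have hpos : 0 < Y.ncard := (Set.ncard_pos (Set.toFinite _)).2 hYne
          obtain ⟨s, rfl⟩ := Set.ncard_eq_one.1 (by omega : Y.ncard = 1)
          apply fO_singleton_le
          have h7 := hC1 s (hY rfl)
          exact (Set.ncard_pos (Set.toFinite _)).1 (by omega)
      C1 := hC1
      C2 := fun Y hY h2 => (hcross Y hY h2).1 }
  have hG := hM.IH Z' κ S T hsoc (Or.inr ⟨rfl, meas_del_lt hadj⟩)
  exact hM.bad (Goal.mono hle (fun a ha b hb hab => by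
    rcases hS.edge_S a b hab with h1 | h1
    · exact (Set.disjoint_left.1 hS.disj) h1 ha
    · exact (Set.disjoint_left.1 hS.disj) h1 hb) hG)

end Pool.Agent.Helper57.TD
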