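import Pool.Agent.Helper57.TD.P3

/-!
# R4: a minimal counterexample has no even edge
-/

set_option autoImplicit false

namespace Pool.Agent.Helper57.TD

open SimpleGraph Pool.Agent.Helper57.TOK Pool.Agent.Helper82.TK

variable {V : Type*}

lemma fO_del_of_even [Finite V] {Z : SimpleGraph V} {κ : V → ZMod 2} {x y : V}
    (heven : κ x = κ y) (Y : Set V) :
    fO (Z.deleteEdges {s(x, y)}) κ Y = fO Z κ Y := by
  apply fO_congr
  intro u v _
  rw [del_adj]
  constructor
  · rintro ⟨⟨h1, -⟩, h3⟩; exact ⟨h1, h3⟩
  · rintro ⟨h1, h3⟩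
    refine ⟨⟨h1, ?_⟩, h3⟩
    intro he
    rw [Sym2.eq_iff] at he
    rcases he with ⟨rfl, rfl⟩ | ⟨rfl, rfl⟩
    · exact (add_eq_one_iff.1 h3) heven
    · exact (add_eq_one_iff.1 h3) heven.symm

lemma ind_self (q : V) : ind q q = 1 := if_pos rfl

lemma ind_of_ne {q x : V} (h : x ≠ q) : ind q x = 0 := if_neg h

/-- Flipping the colour of an outside vertex `z` attached to `Y` by one even edge. -/
lemma fO_flip [Finite V] {Z : SimpleGraph V} {κ κ' : V → ZMod 2} {x z : V} {Y : Set V}
    (hκ : ∀ v, κ' v = κ v + ind z v) (hx : x ∈ Y) (hz : z ∉ Y) (hadj : Z.Adj x z)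
    (heven : κ x = κ z) (honly : ∀ u ∈ Y, Z.Adj u z → u = x) :
    fO Z κ' Y = fO Z κ Y + 1 := by
  have hne : x ≠ z := fun h => hz (h ▸ hx)
  have hκx : κ' x = κ x := by rw [hκ, ind_of_ne hne, add_zero]
  have hκz : κ' z = κ z + 1 := by rw [hκ, ind_self]
  have hodd : κ' x + κ' z = 1 := by
    rw [hκx, hκz, heven]
    have : κ z + κ z = 0 := CharTwo.add_self_eq_zero _
    rw [← add_assoc, this, zero_add]
  have h1 := fO_del_of_odd (κ := κ') (Y := Y) hadj hodd (Or.inl hx)
  have h2 := fO_del_of_even (Z := Z) (κ := κ) heven Y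
  rw [← h2, ← h1]
  congr 1
  apply fO_congr
  intro u v hu
  rw [del_adj]
  have huz : u ≠ z := fun h => hz (h ▸ hu)
  by_cases hv : v = z
  · subst hv
    constructor
    · rintro ⟨⟨h3, h4⟩, -⟩
      exact absurd (by rw [honly u hu h3]) h4
    · rintro ⟨⟨h3, h4⟩, -⟩
      exact absurd (by rw [honly u hu h3]) h4
  · rw [hκ u, hκ v, ind_of_ne huz, ind_of_ne hv, add_zero, add_zero]

/-- R4: all edges are odd. -/
theorem MinCE.proper [Finite V] {md : Bool} {Z : SimpleGraph V} {κ : V → ZMod 2} {S T : Set V}
    (hM : MinCE md Z κ S T)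
    (hdeg : ∀ s ∈ S, 3 ≤ (Z.neighborSet s).ncard)
    (hP1 : ∀ Y ⊆ S, 2 ≤ Y.ncard → 4 ≤ (Nb Z Y).ncard) : Proper Z κ := by
  classical
  have hS := hM.soc
  -- enough: no even edge with an end in S
  suffices hmain : ∀ x y, x ∈ S → Z.Adj x y → κ x ≠ κ y by
    intro u v huv
    rw [add_eq_one_iff]
    rcases hS.edge_S u v huv with h | h
    · exact hmain u v h huv
    · exact (hmain v u h huv.symm).symm
  intro x y hx hadj heven
  have hone : ∀ (κ' : V → ZMod 2), ∀ Y' ⊆ S, Y'.Nonempty → (Nb Z Y').ncard ≤ 3 →
      fO Z κ' Y' ≤ beta κ' (Nb Z Y') := by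
    intro κ' Y' hY' hne' h3
    have hpos : 0 < Y'.ncard := (Set.ncard_pos (Set.toFinite _)).2 hne'
    have h2 : Y'.ncard = 1 := by
      by_contra h2
      have := hP1 Y' hY' (by omega)
      omega
    obtain ⟨s, rfl⟩ := Set.ncard_eq_one.1 h2
    apply fO_singleton_le
    have h7 := hdeg s (hY' rfl)
    exact (Set.ncard_pos (Set.toFinite _)).1 (by omega)
  set Z' := Z.deleteEdges {s(x, y)} with hZ'
  have hle : Z' ≤ Z := del_le Z x y
  -- a bad set is impossible
  have hbad : ∀ Y ⊆ S, 2 ≤ Y.ncard → ∀ p z, p ∈ Y → z ∉ Y → s(p, z) = s(x, y) →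
      Nb Z Y ⊆ insert z (Nb Z' Y) → (Nb Z' Y).ncard ≤ 3 → fO Z κ Y ≤ beta κ (Nb Z' Y) := by
    intro Y hY h2 p z hp hz hpz hsub h3
    by_contra hlt
    push Not at hlt
    have hpadj : Z.Adj p z := by
      have : s(p, z) ∈ Z.edgeSet := by rw [hpz]; exact hadj
      exact this
    have hpeven : κ p = κ z := by
      rw [Sym2.eq_iff] at hpz
      rcases hpz with ⟨rfl, rfl⟩ | ⟨rfl, rfl⟩
      · exact heven
      · exact heven.symm
    have h4 := hP1 Y hY h2
    have hc := (Set.ncard_le_ncard hsub (Set.toFinite _)).trans (Set.ncard_insert_le _ _)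
    have h4' : (Nb Z Y).ncard = 4 := by omega
    have hzN : z ∉ Nb Z' Y := by
      intro h
      rw [Set.insert_eq_of_mem h] at hsub
      have := Set.ncard_le_ncard hsub (Set.toFinite _)
      omega
    have honly : ∀ u ∈ Y, Z.Adj u z → u = p := by
      intro u hu huz
      by_contra hne
      apply hzN
      refine ⟨hz, u, hu, ?_⟩
      rw [hZ', del_adj]
      refine ⟨huz, ?_⟩
      rw [← hpz]
      intro he
      rw [Sym2.eq_iff] at he
      rcases he with ⟨h5, -⟩ | ⟨h5, -⟩
      · exact hne h5
      · exact hz (h5 ▸ hu)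
    let κ' : V → ZMod 2 := fun v => κ v + ind z v
    have hκ' : ∀ v, κ' v = κ v + ind z v := fun _ => rfl
    have hf := fO_flip hκ' hp hz hpadj hpeven honly
    have hbeta : beta κ' (Nb Z Y) < fO Z κ' Y := by
      have h5 : beta κ' (Nb Z Y) ≤ beta κ' (Nb Z' Y) + 1 :=
        (beta_mono hsub).trans beta_insert_le
      have h6 : beta κ' (Nb Z' Y) = beta κ (Nb Z' Y) := by
        apply beta_congr
        intro v hv
        have : v ≠ z := fun h => hzN (h ▸ hv)
        rw [hκ', ind_of_ne this, add_zero]
      linarith
    by_cases hYS : Y = S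
    · subst hYS
      have hNS := hS.Nb_S hS.S_nonempty
      -- flip the colour of the terminal z
      have hsoc : Soc false Z κ' Y T :=
        { T4 := hS.T4
          disj := hS.disj
          edge_mem := hS.edge_mem
          edge_S := hS.edge_S
          M1 := by
            show beta κ' T + 1 ≤ fO Z κ' Y
            rw [← hNS]; linarith
          TT := fun h => absurd h (by decide)
          M2 := hone κ'
          C1 := hS.C1
          C2 := hS.C2 }
      have hzdeg : Z.neighborSet z ⊆ {p} := by
        intro u hu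
        rcases hS.edge_S z u hu with h7 | h7
        · exact absurd h7 hz
        · exact honly u h7 (SimpleGraph.Adj.symm hu)
      have hmeas : meas Z κ' < meas Z κ := by
        unfold meas
        have h8 : {e | e ∈ Z.edgeSet ∧ klab κ' e = 0}.ncard <
            {e | e ∈ Z.edgeSet ∧ klab κ e = 0}.ncard := by
          apply Set.ncard_lt_ncard _ (Set.toFinite _)
          have hk : ∀ u v, Z.Adj u v → s(u, v) ≠ s(p, z) → κ' u = κ u ∧ κ' v = κ v := by
            intro u v huv hne
            have hu : u ≠ z := by
              rintro rfl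
              have := hzdeg huv
              rw [Set.mem_singleton_iff] at this
              exact hne (by rw [this, Sym2.eq_swap])
            have hv : v ≠ z := by
              rintro rfl
              have := hzdeg huv.symm
              rw [Set.mem_singleton_iff] at this
              exact hne (by rw [this])
            exact ⟨by rw [hκ', ind_of_ne hu, add_zero], by rw [hκ', ind_of_ne hv, add_zero]⟩
          have hpκ : κ' p + κ' z = 1 := by
            have hne : p ≠ z := hpadj.ne
            rw [hκ' p, hκ' z, ind_of_ne hne, ind_self, add_zero, hpeven, ← add_assoc,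
              CharTwo.add_self_eq_zero, zero_add]
          constructor
          · intro e he
            obtain ⟨he1, he2⟩ := he
            refine ⟨he1, ?_⟩
            induction e using Sym2.ind with
            | _ u v =>
              rw [klab_mk] at he2 ⊢
              by_cases hne : s(u, v) = s(p, z)
              · exfalso
                rw [Sym2.eq_iff] at hne
                rcases hne with ⟨rfl, rfl⟩ | ⟨rfl, rfl⟩
                · rw [hpκ] at he2; exact absurd he2 (by decide)
                · rw [add_comm, hpκ] at he2; exact absurd he2 (by decide)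
              · obtain ⟨h9, h10⟩ := hk u v he1 hne
                rw [← h9, ← h10]; exact he2
          · intro hsub'
            have h9 : s(p, z) ∈ {e | e ∈ Z.edgeSet ∧ klab κ e = 0} := by
              refine ⟨hpadj, ?_⟩
              rw [klab_mk, hpeven]; exact CharTwo.add_self_eq_zero _
            have h10 := (hsub' h9).2
            rw [klab_mk, hpκ] at h10
            exact absurd h10 (by decide)
        omega
      have hF := hM.HD Z κ' Y T hsoc (Or.inr (Or.inr ⟨rfl, hmeas⟩))
      apply hM.notAll
      refine AllFramesE.flip (q := z) ?_ ?_ hF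
      · exact (Set.ncard_le_ncard hzdeg (Set.toFinite _)).trans (by rw [Set.ncard_singleton])
      · intro v
        rw [hκ', add_assoc, CharTwo.add_self_eq_zero, add_zero]
    · refine hM.no_sub (κ' := κ') hY hYS h4' ?_ hbeta
        (fun Y' hY' => hone κ' Y' (hY'.trans hY)) (Or.inr ⟨z, hκ', ?_⟩)
      · intro X hYX hX
        exact hP1 X hX (h2.trans (Set.ncard_le_ncard hYX (Set.toFinite _)))
      · have h7 : (restr Z Y).neighborSet z ⊆ {p} := by
          intro u hu
          rw [SimpleGraph.mem_neighborSet, restr_adj] at hu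
          rcases hu.2 with h8 | h8
          · exact absurd h8 hz
          · exact honly u h8 hu.1.symm
        exact (Set.ncard_le_ncard h7 (Set.toFinite _)).trans (by rw [Set.ncard_singleton])
  have hC1 : ∀ s ∈ S, 2 ≤ (Z'.neighborSet s).ncard := by
    intro s hs
    have h1 := hdeg s hs
    have h2 := neighborSet_del_ncard (Z := Z) (x := x) (y := y) (s := s)
    rw [← hZ'] at h2
    omega
  have hfeq : ∀ Y, fO Z' κ Y = fO Z κ Y := fun Y => fO_del_of_even heven Y
  have hsoc : Soc md Z' κ S T :=
    { T4 := hS.T4
      disj := hS.disj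
      edge_mem := fun u v h => hS.edge_mem u v (hle h)
      edge_S := fun u v h => hS.edge_S u v (hle h)
      M1 := by rw [hfeq]; exact hS.M1
      TT := hS.TT
      M2 := by
        intro Y hY hYne h3
        by_cases h2 : 2 ≤ Y.ncard
        · rw [hfeq]
          have h4 := hP1 Y hY h2
          by_cases hx' : x ∈ Y
          · by_cases hy' : y ∈ Y
            · have h5 : Nb Z' Y = Nb Z Y := Nb_del_same (by tauto)
              rw [h5] at h3
              omega
            · exact hbad Y hY h2 x y hx' hy' rfl (Nb_del_cross hx') h3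
          · by_cases hy' : y ∈ Y
            · exact hbad Y hY h2 y x hy' hx' Sym2.eq_swap (Nb_del_cross' hy') h3
            · have h5 : Nb Z' Y = Nb Z Y := Nb_del_same (by tauto)
              rw [h5] at h3
              omega
        · have hpos : 0 < Y.ncard := (Set.ncard_pos (Set.toFinite _)).2 hYne
          obtain ⟨s, rfl⟩ := Set.ncard_eq_one.1 (by omega : Y.ncard = 1)
          apply fO_singleton_le
          have h7 := hC1 s (hY rfl)
          exact (Set.ncard_pos (Set.toFinite _)).1 (by omega)
      C1 := hC1
      C2 := by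
        intro Y hY h2
        have h4 := hP1 Y hY h2
        by_cases hx' : x ∈ Y
        · by_cases hy' : y ∈ Y
          · have h5 : Nb Z' Y = Nb Z Y := Nb_del_same (by tauto)
            rw [h5]; omega
          · have h6 := (Set.ncard_le_ncard (Nb_del_cross (Z := Z) (x := x) (y := y) hx')
              (Set.toFinite _)).trans (Set.ncard_insert_le _ _)
            rw [← hZ'] at h6
            omega
        · by_cases hy' : y ∈ Y
          · have h6 := (Set.ncard_le_ncard (Nb_del_cross' (Z := Z) (x := x) (y := y) hy')
              (Set.toFinite _)).trans (Set.ncard_insert_le _ _)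
            rw [← hZ'] at h6
            omega
          · have h5 : Nb Z' Y = Nb Z Y := Nb_del_same (by tauto)
            rw [h5]; omega }
  have hG := hM.IH Z' κ S T hsoc (Or.inr ⟨rfl, meas_del_lt hadj⟩)
  exact hM.bad (Goal.mono hle (fun a ha b hb hab => by
    rcases hS.edge_S a b hab with h1 | h1
    · exact (Set.disjoint_left.1 hS.disj) h1 ha
    · exact (Set.disjoint_left.1 hS.disj) h1 hb) hG)

end Pool.Agent.Helper57.TD
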