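import Pool.Agent.Helper57.TD.Assemble
import Pool.Agent.Helper57.TD.R4
import Pool.Agent.Helper1.TD.R2

/-!
# The reductions of Theorem D, complete: minimal counterexample gives `CoreD` / `CoreB`
-/

set_option autoImplicit false

namespace Pool.Agent.Helper57.TD

open SimpleGraph Pool.Agent.Helper57.TOK Pool.Agent.Helper82.TK Pool.Agent.Helper1.TD

variable {V : Type*}

/-- A minimal counterexample gives the core situation (both modes). -/
theorem MinCE.toCore [Finite V] {md : Bool} {Z : SimpleGraph V} {κ : V → ZMod 2}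
    {S T : Set V} (hM : MinCE md Z κ S T) :
    Core Z κ S T ∧ fden Z S = thr md κ T := by
  have hI := hM.ind'
  have hdeg : ∀ s ∈ S, 3 ≤ (Z.neighborSet s).ncard := MinCE.deg3 hM hI
  have hP1 := hI.P1 hdeg
  have hprop := hM.proper hdeg hP1
  have hP2 := hM.P2 hP1
  have hP3 := hM.P3 hprop hdeg hP1
  refine ⟨hM.core hprop hdeg hP2 hP3, ?_⟩
  rw [← fO_eq_fden hprop]
  exact hP3

/-- Dense mode. -/
theorem MinCE.coreD [Finite V] {Z : SimpleGraph V} {κ : V → ZMod 2}
    {S T : Set V} (hM : MinCE false Z κ S T) : CoreD Z κ S T := by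
  obtain ⟨h1, h2⟩ := hM.toCore
  exact
    { toCore := h1
      P3 := h2
      noI7 := noI7_of_bad h1.prop hM.soc.noTT hM.notAll
      noI8 := noI8_of_bad h1.prop hM.soc.noTT hM.notAll }

/-- Tight mode. -/
theorem MinCE.coreB [Finite V] {Z : SimpleGraph V} {κ : V → ZMod 2}
    {S T : Set V} (hM : MinCE true Z κ S T) : CoreB Z κ S T := by
  obtain ⟨h1, h2⟩ := hM.toCore
  exact
    { toCore := h1
      P3 := h2
      TT := hM.soc.TT rfl
      noHT := hM.bad }

/-- Theorem D from the impossibility of the core situation. -/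
theorem theoremD_of [Finite V]
    (hcore : ∀ (Z : SimpleGraph V) (κ : V → ZMod 2) (S T : Set V), ¬ CoreD Z κ S T)
    (Z : SimpleGraph V) (κ : V → ZMod 2) (S T : Set V) (h : Soc false Z κ S T) :
    AllFramesE Z κ T :=
  goal_of_no_minCE (md := false) (fun h => absurd h (by decide))
    (fun Z κ S T hM => hcore Z κ S T hM.coreD) Z κ S T h

/-- The tight version from Theorem D and the impossibility of the tight core situation. -/
theorem theoremDb_of [Finite V]
    (hD : ∀ (Z : SimpleGraph V) (κ : V → ZMod 2) (S T : Set V),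
      Soc false Z κ S T → AllFramesE Z κ T)
    (hcore : ∀ (Z : SimpleGraph V) (κ : V → ZMod 2) (S T : Set V), ¬ CoreB Z κ S T)
    (Z : SimpleGraph V) (κ : V → ZMod 2) (S T : Set V) (h : Soc true Z κ S T) :
    HT Z κ T :=
  goal_of_no_minCE (md := true) (fun _ => hD)
    (fun Z κ S T hM => hcore Z κ S T hM.coreB) Z κ S T h

end Pool.Agent.Helper57.TD
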