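import Pool.Agent.Helper57.TD.Flip

/-!
# Reduction R1: replacing a maximal set with three neighbours by one of its vertices
-/

set_option autoImplicit false

namespace Pool.Agent.Helper57.TD

open SimpleGraph Pool.Agent.Helper57.TOK Pool.Agent.Helper82.TK

variable {V : Type*}

/-- Delete all vertices of `W` except `u` and join `u` to all of `Nb Z W`. -/
def repG (Z : SimpleGraph V) (W : Set V) (u : V) : SimpleGraph V where
  Adj x y := x ≠ y ∧ ((x ∉ W ∧ y ∉ W ∧ Z.Adj x y) ∨ (x = u ∧ y ∈ Nb Z W) ∨ (y = u ∧ x ∈ Nb Z W))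
  symm := ⟨by
    rintro x y ⟨h1, h2⟩
    refine ⟨h1.symm, ?_⟩
    rcases h2 with h2 | h2 | h2
    · exact Or.inl ⟨h2.2.1, h2.1, h2.2.2.symm⟩
    · exact Or.inr (Or.inr h2)
    · exact Or.inr (Or.inl h2)⟩
  loopless := ⟨fun _ h => h.1 rfl⟩

lemma repG_adj {Z : SimpleGraph V} {W : Set V} {u x y : V} : (repG Z W u).Adj x y ↔
    x ≠ y ∧ ((x ∉ W ∧ y ∉ W ∧ Z.Adj x y) ∨ (x = u ∧ y ∈ Nb Z W) ∨ (y = u ∧ x ∈ Nb Z W)) := Iff.rfl

lemma repG_adj_u {Z : SimpleGraph V} {W : Set V} {u y : V} (hu : u ∈ W) :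
    (repG Z W u).Adj u y ↔ y ∈ Nb Z W := by
  rw [repG_adj]
  constructor
  · rintro ⟨h1, h2 | h2 | h2⟩
    · exact absurd hu h2.1
    · exact h2.2
    · exact absurd h2.1.symm h1
  · intro h
    exact ⟨fun hh => h.1 (hh ▸ hu), Or.inr (Or.inl ⟨rfl, h⟩)⟩

lemma repG_adj_out {Z : SimpleGraph V} {W : Set V} {u x y : V} (hu : u ∈ W) (hx : x ∉ W)
    (hy : y ∉ W) : (repG Z W u).Adj x y ↔ Z.Adj x y := by
  rw [repG_adj]
  constructor
  · rintro ⟨h1, h2 | h2 | h2⟩
    · exact h2.2.2
    · exact absurd (h2.1 ▸ hu) hx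
    · exact absurd (h2.1 ▸ hu) hy
  · intro h
    exact ⟨h.ne, Or.inl ⟨hx, hy, h⟩⟩

lemma delG_repG {Z : SimpleGraph V} {W : Set V} {u : V} (hu : u ∈ W) :
    delG (repG Z W u) {u} = delG Z W := by
  ext x y
  rw [delG_adj, delG_adj, repG_adj]
  simp only [Set.mem_singleton_iff]
  constructor
  · rintro ⟨⟨h1, h2 | h2 | h2⟩, h3, h4⟩
    · exact ⟨h2.2.2, h2.1, h2.2.1⟩
    · exact absurd h2.1 h3
    · exact absurd h2.1 h4
  · rintro ⟨h1, h2, h3⟩
    exact ⟨⟨h1.ne, Or.inl ⟨h2, h3, h1⟩⟩, fun h => h2 (h ▸ hu), fun h => h3 (h ▸ hu)⟩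

/-- Splitting off a set from the count. -/
lemma fO_union_del [Finite V] (Z : SimpleGraph V) (κ : V → ZMod 2) {A W : Set V}
    (h : Disjoint A W) : fO Z κ (A ∪ W) = fO (delG Z W) κ A + fO Z κ W := by
  unfold fO fden rho
  have e1 : EAt (oddG Z κ) (A ∪ W) = EAt (oddG (delG Z W) κ) A ∪ EAt (oddG Z κ) W := by
    ext e
    induction e using Sym2.ind with
    | _ x y =>
      simp only [Set.mem_union, mem_EAt, oddG_adj, delG_adj]
      by_cases hx : x ∈ W <;> by_cases hy : y ∈ W <;> tauto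
  have hd : Disjoint (EAt (oddG (delG Z W) κ) A) (EAt (oddG Z κ) W) := by
    rw [Set.disjoint_left]
    intro e
    induction e using Sym2.ind with
    | _ x y =>
      simp only [mem_EAt, oddG_adj, delG_adj]
      tauto
  rw [e1, Set.ncard_union_eq hd (Set.toFinite _) (Set.toFinite _),
    Set.ncard_union_eq h (Set.toFinite _) (Set.toFinite _)]
  push_cast
  ring

/-- Neighbourhood in the replaced graph, `u` in the set. -/
lemma Nb_repG_of_mem {Z : SimpleGraph V} {W Y : Set V} {u : V} (hu : u ∈ W) (huY : u ∈ Y)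
    (hd : Disjoint (Y \ {u}) W) : Nb (repG Z W u) Y = Nb Z ((Y \ {u}) ∪ W) := by
  ext v
  constructor
  · rintro ⟨hv, y, hy, h1, h2 | h2 | h2⟩
    · refine ⟨?_, y, Or.inl ⟨hy, fun h => h2.1 (Set.mem_singleton_iff.1 h ▸ hu)⟩, h2.2.2⟩
      rintro (h3 | h3)
      · exact hv h3.1
      · exact h2.2.1 h3
    · obtain ⟨h3, w, hw, h4⟩ := h2.2
      refine ⟨?_, w, Or.inr hw, h4⟩
      rintro (h5 | h5)
      · exact hv h5.1
      · exact h3 h5
    · exact absurd (h2.1 ▸ huY) hv
  · rintro ⟨hv, y, hy, h1⟩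
    have hvW : v ∉ W := fun h => hv (Or.inr h)
    have hvu : v ≠ u := fun h => hvW (h ▸ hu)
    have hvY : v ∉ Y := fun h => hv (Or.inl ⟨h, hvu⟩)
    refine ⟨hvY, ?_⟩
    rcases hy with hy | hy
    · exact ⟨y, hy.1, h1.ne, Or.inl ⟨(Set.disjoint_left.1 hd) hy, hvW, h1⟩⟩
    · exact ⟨u, huY, fun h => hvu h.symm, Or.inr (Or.inl ⟨rfl, hvW, y, hy, h1⟩)⟩

/-- Neighbourhood in the replaced graph, `u` not in the set. -/
lemma mem_Nb_repG_of_notMem {Z : SimpleGraph V} {W Y : Set V} {u : V} (hu : u ∈ W)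
    (hd : Disjoint Y W) (v : V) : v ∈ Nb (repG Z W u) Y ↔
      (v ∈ Nb Z Y ∧ v ∉ W) ∨ (v = u ∧ (Y ∩ Nb Z W).Nonempty) := by
  have hYW := Set.disjoint_left.1 hd
  constructor
  · rintro ⟨hv, y, hy, h1, h2 | h2 | h2⟩
    · exact Or.inl ⟨⟨hv, y, hy, h2.2.2⟩, h2.2.1⟩
    · exact absurd (h2.1 ▸ hu) (hYW hy)
    · exact Or.inr ⟨h2.1, y, hy, h2.2⟩
  · rintro (⟨⟨hv, y, hy, h1⟩, h2⟩ | ⟨h1, y, hy, h2⟩)
    · exact ⟨hv, y, hy, h1.ne, Or.inl ⟨hYW hy, h2, h1⟩⟩
    · refine ⟨fun h => hYW h (h1 ▸ hu), y, hy, ?_, Or.inr (Or.inr ⟨h1, h2⟩)⟩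
      intro h
      exact hYW hy (h ▸ h1 ▸ hu)

/-- The union with `W`. -/
lemma Nb_union_subset (Z : SimpleGraph V) (Y W : Set V) :
    Nb Z (Y ∪ W) ⊆ (Nb Z Y \ W) ∪ (Nb Z W \ Y) := by
  rintro v ⟨h1, u, hu, h2⟩
  have hvY : v ∉ Y := fun h => h1 (Or.inl h)
  have hvW : v ∉ W := fun h => h1 (Or.inr h)
  rcases hu with hu | hu
  · exact Or.inl ⟨⟨hvY, u, hu, h2⟩, hvW⟩
  · exact Or.inr ⟨⟨hvW, u, hu, h2⟩, hvY⟩

/-- `beta` of a set with at most... the colour inequality used when one boundary vertex `z` is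
replaced by `x`. -/
lemma beta_swap [Finite V] {κ : V → ZMod 2} {x z : V} {R : Set V} (hR : R.ncard = 2)
    (hx : x ∉ R) (hz : z ∉ R) :
    beta κ (insert z R) + ({w | w ∈ insert x R ∧ κ z + κ w = 1}.ncard : ℤ) - 2 ≤
      beta κ (insert x R) := by
  classical
  obtain ⟨r1, r2, hne, rfl⟩ := Set.ncard_eq_two.1 hR
  have hx1 : x ≠ r1 := fun h => hx (by simp [h])
  have hx2 : x ≠ r2 := fun h => hx (by simp [h])
  have hcx : (insert x ({r1, r2} : Set V)).ncard = 3 := by
    rw [Set.ncard_insert_of_notMem hx (Set.toFinite _), hR]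
  have hcz : (insert z ({r1, r2} : Set V)).ncard = 3 := by
    rw [Set.ncard_insert_of_notMem hz (Set.toFinite _), hR]
  -- the count as a sum of three indicators
  have hcount : ({w | w ∈ insert x ({r1, r2} : Set V) ∧ κ z + κ w = 1}).ncard =
      (if κ z + κ x = 1 then 1 else 0) + (if κ z + κ r1 = 1 then 1 else 0) +
        (if κ z + κ r2 = 1 then 1 else 0) := by
    have e : {w | w ∈ insert x ({r1, r2} : Set V) ∧ κ z + κ w = 1} =
        (((({x, r1, r2} : Finset V).filter (fun w => κ z + κ w = 1)) : Finset V) : Set V) := by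
      ext w
      simp only [Set.mem_ofPred_eq, Finset.coe_filter, Finset.mem_insert, Finset.mem_singleton,
        Set.mem_insert_iff, Set.mem_singleton_iff]
    rw [e, Set.ncard_coe_finset, Finset.card_filter, Finset.sum_insert, Finset.sum_insert,
      Finset.sum_singleton]
    · ring
    · simpa using hne
    · simp [hx1, hx2]
  have hM : ∀ t : V, Mono κ (insert t ({r1, r2} : Set V)) ↔ κ t = κ r1 ∧ κ r1 = κ r2 := by
    intro t
    constructor
    · intro h
      exact ⟨h t (by simp) r1 (by simp), h r1 (by simp) r2 (by simp)⟩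
    · rintro ⟨h1, h2⟩ a ha b hb
      simp only [Set.mem_insert_iff, Set.mem_singleton_iff] at ha hb
      rcases ha with rfl | rfl | rfl <;> rcases hb with rfl | rfl | rfl <;>
        simp [h1, h2]
  have hb : ∀ t : V, (insert t ({r1, r2} : Set V)).ncard = 3 →
      beta κ (insert t ({r1, r2} : Set V)) = if κ t = κ r1 ∧ κ r1 = κ r2 then 1 else 0 := by
    intro t ht
    by_cases h : κ t = κ r1 ∧ κ r1 = κ r2
    · rw [if_pos h, beta_of_mono ((hM t).2 h), ht]; norm_num
    · rw [if_neg h, beta_of_not_mono (fun hh => h ((hM t).1 hh)), ht]; norm_num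
  rw [hb x hcx, hb z hcz, hcount]
  generalize κ x = cx
  generalize κ z = cz
  generalize κ r1 = c1
  generalize κ r2 = c2
  revert cx cz c1 c2
  decide

/-- Soc of the replaced graph. -/
theorem Soc.rep [Finite V] {md : Bool} {Z : SimpleGraph V} {κ : V → ZMod 2} {S T : Set V}
    (hS : Soc md Z κ S T) {W : Set V} (hW : W ⊆ S) (h3 : (Nb Z W).ncard = 3)
    (hmax : ∀ X, W ⊆ X → X ⊆ S → X ≠ W → 4 ≤ (Nb Z X).ncard) {u : V} (hu : u ∈ W)
    (hf : fO Z κ W ≤ fO (repG Z W u) κ {u}) :
    Soc md (repG Z W u) κ (insert u (S \ W)) T := by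
  classical
  have hS'S : insert u (S \ W) ⊆ S := by
    intro x hx
    rcases hx with rfl | hx
    · exact hW hu
    · exact hx.1
  have hNW : Nb Z W ⊆ (S ∪ T) \ W := hS.Nb_subset W
  have huN : u ∉ Nb Z W := fun h => h.1 hu
  -- f for sets containing u
  have hfu : ∀ Y : Set V, u ∈ Y → Disjoint (Y \ {u}) W →
      fO Z κ ((Y \ {u}) ∪ W) ≤ fO (repG Z W u) κ Y := by
    intro Y huY hd
    have e1 : Y = (Y \ {u}) ∪ {u} := by
      rw [Set.sdiff_union_self]; exact (Set.union_eq_self_of_subset_right (by simpa using huY)).symm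
    have hd' : Disjoint (Y \ {u}) {u} := Set.disjoint_sdiff_left
    have e2 : fO (repG Z W u) κ Y =
        fO (delG (repG Z W u) {u}) κ (Y \ {u}) + fO (repG Z W u) κ {u} := by
      conv_lhs => rw [e1]
      exact fO_union_del _ κ hd'
    rw [e2, delG_repG hu, fO_union_del Z κ hd]
    linarith
  have hsplit : ∀ Y : Set V, Y ⊆ insert u (S \ W) → Disjoint (Y \ {u}) W := by
    intro Y hY
    rw [Set.disjoint_left]
    rintro x ⟨hx, hxu⟩ hxW
    rcases hY hx with h | h
    · exact hxu h
    · exact h.2 hxW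
  have hdisj : ∀ Y : Set V, Y ⊆ insert u (S \ W) → u ∉ Y → Disjoint Y W := by
    intro Y hY huY
    rw [Set.disjoint_left]
    intro x hx hxW
    rcases hY hx with h | h
    · exact huY (h ▸ hx)
    · exact h.2 hxW
  -- the case u ∉ Y : three possibilities for Y ∩ Nb Z W
  have hcase0 : ∀ Y : Set V, Disjoint Y W → ¬ (Y ∩ Nb Z W).Nonempty →
      Nb (repG Z W u) Y = Nb Z Y ∧ fO (repG Z W u) κ Y = fO Z κ Y := by
    intro Y hd hne
    have hYW := Set.disjoint_left.1 hd
    have hno : ∀ y ∈ Y, ∀ w ∈ W, ¬ Z.Adj y w := by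
      intro y hy w hw h
      exact hne ⟨y, hy, hYW hy, w, hw, h.symm⟩
    have hadj : ∀ y v, y ∈ Y → ((repG Z W u).Adj y v ↔ Z.Adj y v) := by
      intro y v hy
      by_cases hv : v ∈ W
      · constructor
        · rintro ⟨h1, h2 | h2 | h2⟩
          · exact absurd hv h2.2.1
          · exact absurd (h2.1 ▸ hu) (hYW hy)
          · exact absurd ⟨y, hy, h2.2⟩ hne
        · intro h; exact absurd h (hno y hy v hv)
      · exact repG_adj_out hu (hYW hy) hv
    refine ⟨Nb_congr (fun y v hy _ => hadj y v hy), fO_congr (fun y v hy => ?_)⟩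
    rw [hadj y v hy]
  have hcase : ∀ Y : Set V, Y ⊆ S → Disjoint Y W → (Y ∩ Nb Z W).Nonempty →
      4 ≤ (Nb (repG Z W u) Y \ {u}).ncard + (3 - (Y ∩ Nb Z W).ncard) ∧
        u ∈ Nb (repG Z W u) Y := by
    intro Y hYS hd hne
    refine ⟨?_, (mem_Nb_repG_of_notMem hu hd u).2 (Or.inr ⟨rfl, hne⟩)⟩
    have h4 := hmax (Y ∪ W) Set.subset_union_right (Set.union_subset hYS hW) ?_
    · have h5 := Set.ncard_le_ncard (Nb_union_subset Z Y W) (Set.toFinite _)
      have h6 := Set.ncard_union_le (Nb Z Y \ W) (Nb Z W \ Y)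
      have h7 : Nb Z Y \ W ⊆ Nb (repG Z W u) Y \ {u} := by
        intro v hv
        refine ⟨(mem_Nb_repG_of_notMem hu hd v).2 (Or.inl hv), ?_⟩
        intro h
        exact hv.2 (Set.mem_singleton_iff.1 h ▸ hu)
      have h8 := Set.ncard_le_ncard h7 (Set.toFinite _)
      have h9 : (Nb Z W \ Y).ncard = 3 - (Y ∩ Nb Z W).ncard := by
        have := Set.ncard_inter_add_ncard_sdiff_eq_ncard (Nb Z W) Y (Set.toFinite _)
        rw [Set.inter_comm] at this
        omega
      omega
    · intro h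
      obtain ⟨y, hy, -⟩ := hne
      have : y ∈ W := h ▸ Or.inl hy
      exact (Set.disjoint_left.1 hd) hy this
  have hYS : ∀ Y : Set V, Y ⊆ insert u (S \ W) → Y ⊆ S := fun Y hY => hY.trans hS'S
  -- degree of vertices
  have hC1 : ∀ s ∈ insert u (S \ W), 2 ≤ ((repG Z W u).neighborSet s).ncard := by
    intro s hs
    rcases hs with rfl | hs
    · have : (repG Z W s).neighborSet s = Nb Z W := by
        ext v; rw [SimpleGraph.mem_neighborSet]; exact repG_adj_u hu
      rw [this, h3]; norm_num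
    · have hd : Disjoint ({s} : Set V) W := by
        rw [Set.disjoint_left]; rintro x hx hxW
        rw [Set.mem_singleton_iff] at hx; exact hs.2 (hx ▸ hxW)
      rw [← Nb_singleton]
      by_cases hne : (({s} : Set V) ∩ Nb Z W).Nonempty
      · obtain ⟨h4, h5⟩ := hcase {s} (by simpa using hs.1) hd hne
        have h6 : (({s} : Set V) ∩ Nb Z W).ncard = 1 := by
          have : ({s} : Set V) ∩ Nb Z W = {s} := by
            obtain ⟨x, hx, hx'⟩ := hne
            rw [Set.mem_singleton_iff] at hx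
            subst hx
            ext y
            simp only [Set.mem_inter_iff, Set.mem_singleton_iff]
            exact ⟨fun h => h.1, fun h => ⟨h, h ▸ hx'⟩⟩
          rw [this, Set.ncard_singleton]
        have h7 := Set.ncard_le_ncard (Set.sdiff_subset (s := Nb (repG Z W u) {s}) (t := {u}))
          (Set.toFinite _)
        omega
      · obtain ⟨h4, -⟩ := hcase0 {s} hd hne
        rw [h4, Nb_singleton]
        exact hS.C1 s hs.1
  refine ⟨hS.T4, hS.disj.mono_left hS'S, ?_, ?_, ?_, hS.TT, ?_, hC1, ?_⟩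
  · -- edge_mem
    rintro x y ⟨h1, h2 | h2 | h2⟩
    · rcases hS.edge_mem x y h2.2.2 with h | h
      · exact Or.inl (Or.inr ⟨h, h2.1⟩)
      · exact Or.inr h
    · left; left; exact h2.1
    · rcases (hNW h2.2).1 with h | h
      · exact Or.inl (Or.inr ⟨h, (hNW h2.2).2⟩)
      · exact Or.inr h
  · -- edge_S
    rintro x y ⟨h1, h2 | h2 | h2⟩
    · rcases hS.edge_S x y h2.2.2 with h | h
      · exact Or.inl (Or.inr ⟨h, h2.1⟩)
      · exact Or.inr (Or.inr ⟨h, h2.2.1⟩)
    · left; left; exact h2.1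
    · right; left; exact h2.1
  · -- M1
    have h4 := hfu (insert u (S \ W)) (Set.mem_insert _ _) (hsplit _ subset_rfl)
    have h5 : (insert u (S \ W) \ {u}) ∪ W = S := by
      ext x
      simp only [Set.mem_union, Set.mem_sdiff, Set.mem_insert_iff, Set.mem_singleton_iff]
      constructor
      · rintro (⟨h | h, h'⟩ | h)
        · exact absurd h h'
        · exact h.1
        · exact hW h
      · intro h
        by_cases hx : x ∈ W
        · exact Or.inr hx
        · exact Or.inl ⟨Or.inr ⟨h, hx⟩, fun hh => hx (hh ▸ hu)⟩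
    rw [h5] at h4
    exact hS.M1.trans h4
  · -- M2
    intro Y hY hne hc
    by_cases huY : u ∈ Y
    · by_cases hYu : Y = {u}
      · rw [hYu]
        apply fO_singleton_le
        have : 0 < ((repG Z W u).neighborSet u).ncard := by
          have := hC1 u (Set.mem_insert _ _); omega
        exact (Set.ncard_pos (Set.toFinite _)).1 this
      · exfalso
        have hd := hsplit Y hY
        rw [Nb_repG_of_mem hu huY hd] at hc
        have h4 := hmax ((Y \ {u}) ∪ W) Set.subset_union_right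
          (Set.union_subset (Set.sdiff_subset.trans (hYS Y hY)) hW) ?_
        · omega
        · intro h
          apply hYu
          ext x
          constructor
          · intro hx
            by_contra hxu
            have : x ∈ W := h ▸ Or.inl ⟨hx, hxu⟩
            exact (Set.disjoint_left.1 hd) ⟨hx, hxu⟩ this
          · intro hx
            rw [Set.mem_singleton_iff] at hx
            exact hx ▸ huY
    · have hd := hdisj Y hY huY
      by_cases hne' : (Y ∩ Nb Z W).Nonempty
      · obtain ⟨h4, h5⟩ := hcase Y (hYS Y hY) hd hne'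
        have h6 : (Nb (repG Z W u) Y \ {u}).ncard + 1 = (Nb (repG Z W u) Y).ncard :=
          Set.ncard_sdiff_singleton_add_one h5 (Set.toFinite _)
        have h7 : 0 < (Y ∩ Nb Z W).ncard := (Set.ncard_pos (Set.toFinite _)).2 hne'
        have h8 : (Y ∩ Nb Z W).ncard = 1 := by omega
        have h9 : (Nb (repG Z W u) Y \ {u}).ncard = 2 := by omega
        obtain ⟨z, hz⟩ := Set.ncard_eq_one.1 h8
        have hzY : z ∈ Y := by
          have : z ∈ Y ∩ Nb Z W := hz ▸ rfl
          exact this.1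
        have hzN : z ∈ Nb Z W := by
          have : z ∈ Y ∩ Nb Z W := hz ▸ rfl
          exact this.2
        set R := Nb (repG Z W u) Y \ {u} with hRdef
        have hNbeq : Nb (repG Z W u) Y = insert u R := by
          rw [hRdef, Set.insert_sdiff_singleton, Set.insert_eq_of_mem h5]
        have hzR : z ∉ R := fun h => h.1.1 hzY
        have huR : u ∉ R := fun h => h.2 rfl
        have hYz : Y = insert z (Y \ {z}) := by
          rw [Set.insert_sdiff_singleton, Set.insert_eq_of_mem hzY]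
        have hz0 : z ∉ Y \ {z} := fun h => h.2 rfl
        by_cases hY0 : (Y \ {z}).Nonempty
        · have hd0 : Disjoint (Y \ {z}) W := hd.mono_left Set.sdiff_subset
          have hne0 : ¬ ((Y \ {z}) ∩ Nb Z W).Nonempty := by
            rintro ⟨x, hx, hx'⟩
            have : x ∈ Y ∩ Nb Z W := ⟨hx.1, hx'⟩
            rw [hz, Set.mem_singleton_iff] at this
            exact hx.2 this
          obtain ⟨h10, h11⟩ := hcase0 (Y \ {z}) hd0 hne0
          have h12 : Nb Z (Y \ {z}) ⊆ insert z R := by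
            intro v hv
            by_cases hvz : v = z
            · exact Or.inl hvz
            · right
              have hvY : v ∉ Y := fun h => hv.1 ⟨h, hvz⟩
              rw [← h10] at hv
              obtain ⟨-, x, hx, hxv⟩ := hv
              refine ⟨⟨hvY, x, hx.1, hxv⟩, ?_⟩
              intro hvu
              rw [Set.mem_singleton_iff] at hvu
              subst hvu
              have : x ∈ Nb Z W := (repG_adj_u hu).1 hxv.symm
              exact hne0 ⟨x, hx, this⟩
          have h13 : (insert z R).ncard = 3 := by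
            rw [Set.ncard_insert_of_notMem hzR (Set.toFinite _), h9]
          have h14 := Set.ncard_le_ncard h12 (Set.toFinite _)
          have h15 := hS.M2 (Y \ {z}) (Set.sdiff_subset.trans (hYS Y hY)) hY0 (by omega)
          have h16 := beta_mono (κ := κ) h12
          have h17 := beta_swap (κ := κ) h9 huR hzR
          have h18 : fO (repG Z W u) κ Y = fO (repG Z W u) κ (Y \ {z}) +
              ({w | (repG Z W u).Adj z w ∧ κ z + κ w = 1 ∧ w ∉ Y \ {z}}.ncard : ℤ) - 2 := by
            conv_lhs => rw [hYz]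
            exact fO_insert hz0
          have h19 : ({w | (repG Z W u).Adj z w ∧ κ z + κ w = 1 ∧ w ∉ Y \ {z}}).ncard ≤
              ({w | w ∈ insert u R ∧ κ z + κ w = 1}).ncard := by
            apply Set.ncard_le_ncard _ (Set.toFinite _)
            rintro w ⟨g1, g2, g3⟩
            refine ⟨?_, g2⟩
            rw [← hNbeq]
            refine ⟨?_, z, hzY, g1⟩
            intro hw
            exact g3 ⟨hw, fun h => g1.ne (Set.mem_singleton_iff.1 h).symm⟩
          have h19' : (({w | (repG Z W u).Adj z w ∧ κ z + κ w = 1 ∧ w ∉ Y \ {z}}).ncard : ℤ) ≤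
              (({w | w ∈ insert u R ∧ κ z + κ w = 1}).ncard : ℤ) := by exact_mod_cast h19
          rw [h18, h11, hNbeq]
          linarith
        · rw [Set.not_nonempty_iff_eq_empty] at hY0
          have hYz' : Y = {z} := by rw [hYz, hY0]; simp
          have hzS' : z ∈ insert u (S \ W) := hY hzY
          rw [hYz']
          apply fO_singleton_le
          have : 0 < ((repG Z W u).neighborSet z).ncard := by
            have := hC1 z hzS'; omega
          exact (Set.ncard_pos (Set.toFinite _)).1 this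
      · obtain ⟨h4, h5⟩ := hcase0 Y hd hne'
        rw [h4] at hc ⊢
        rw [h5]
        exact hS.M2 Y (hYS Y hY) hne hc
  · -- C2
    intro Y hY hc
    by_cases huY : u ∈ Y
    · have hd := hsplit Y hY
      rw [Nb_repG_of_mem hu huY hd]
      have h4 := hmax ((Y \ {u}) ∪ W) Set.subset_union_right
        (Set.union_subset (Set.sdiff_subset.trans (hYS Y hY)) hW) ?_
      · omega
      · intro h
        have : Y ⊆ {u} := by
          intro x hx
          by_contra hxu
          have : x ∈ W := h ▸ Or.inl ⟨hx, hxu⟩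
          exact (Set.disjoint_left.1 hd) ⟨hx, hxu⟩ this
        have := Set.ncard_le_ncard this (Set.toFinite _)
        rw [Set.ncard_singleton] at this
        omega
    · have hd := hdisj Y hY huY
      by_cases hne' : (Y ∩ Nb Z W).Nonempty
      · obtain ⟨h4, h5⟩ := hcase Y (hYS Y hY) hd hne'
        have h6 : (Nb (repG Z W u) Y \ {u}).ncard + 1 = (Nb (repG Z W u) Y).ncard :=
          Set.ncard_sdiff_singleton_add_one h5 (Set.toFinite _)
        have h7 : 0 < (Y ∩ Nb Z W).ncard := (Set.ncard_pos (Set.toFinite _)).2 hne'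
        omega
      · obtain ⟨h4, -⟩ := hcase0 Y hd hne'
        rw [h4]
        exact hS.C2 Y (hYS Y hY) hc

end Pool.Agent.Helper57.TD
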